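import Mathlib
import Pool.Agent.R488.Sq.Defs

set_option autoImplicit false

/-!
Statements for MP_d57286_nt (`∑ u_k(4,1) C(2k,k)^2/64^k = 2y - p/(6y)` modulo `p^2`,
`p = 12M+7 = x^2+3y^2`).
-/

namespace Pool.Agent.R488.Tw

open Finset Pool.Agent.R439.PL Pool.Agent.R488.Cub

/-- the Lucas sequence `u_k(4,1)` -/
def uu : ℕ → ℤ
  | 0 => 0
  | 1 => 1
  | (n + 2) => 4 * uu (n + 1) - uu n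

/-- TW-U -/
def StmtU : Prop := ∀ m : ℕ, ∑ k ∈ range (2 * m + 2),
    (uu k : ℚ) * ((2 * m + 1).choose k : ℚ) * ((2 * m + 1 + k).choose k : ℚ) * (-(1 / 4)) ^ k =
  -(1 / 2) * ∑ k ∈ range (m + 1), (∏ i ∈ range k,
    (((i : ℚ) - m) * (m + 3 / 2 + i) / ((1 + i) * (1 + i)))) * (1 / 4) ^ k

def FC (M k : ℕ) : ℚ := ∏ i ∈ range k,
  ((3 * (M : ℚ) + 1 - i) * (M + 4 / 3 + i) / ((2 * M + 1 / 6 - i) * (1 + i)) * (1 / 4))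

def FD (n k : ℕ) : ℚ := ∏ i ∈ range k,
  (((i : ℚ) - n) * (3 * n + 3 + i) / ((2 * n + 5 / 2 + i) * (1 + i)) * (1 / 4))

/-- TW-C -/
def StmtC : Prop := ∀ M : ℕ, ∑ k ∈ range (3 * M + 2), FC M k =
  3 * (27 / 16) ^ M * ∏ i ∈ range (2 * M), ((4 / 3 + i) / (7 / 6 + i) : ℚ)

/-- TW-D -/
def StmtD : Prop := ∀ n : ℕ, ∑ k ∈ range (n + 1), FD n k =
  (16 / 27) ^ n * ∏ i ∈ range (2 * n), ((5 / 2 + i) / (7 / 3 + i) : ℚ)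

/-- TW-J -/
def StmtJ : Prop := ∀ (p j : ℕ) [Fact p.Prime], p = 6 * j + 1 →
  ∃ A B t : ℤ, (p : ℤ) = A ^ 2 + 3 * B ^ 2 ∧ A % 3 = 2 ∧ (p : ℤ) ^ 2 ∣ t ^ 2 + 3 ∧
    EQ p 2 (JS p j * 256 ^ (j * p)) ((A : ℚ) + B * t)

/-- TW-S -/
def StmtSgn : Prop := ∀ (p M : ℕ), p.Prime → p = 12 * M + 7 → ∀ A y : ℤ,
  (p : ℤ) = A ^ 2 + 3 * y ^ 2 → A % 3 = 2 → (p : ℤ) ∣ A - y * 9 * 27 ^ M → y % 4 = 1

/-- TW-Q -/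
def StmtUniq : Prop := ∀ (p : ℕ), p.Prime → ∀ x y x' y' : ℤ, (p : ℤ) = x ^ 2 + 3 * y ^ 2 →
  (p : ℤ) = x' ^ 2 + 3 * y' ^ 2 → y = y' ∨ y = -y'

/-- TW-F -/
def StmtF : Prop := ∀ (p j : ℕ) [Fact p.Prime], p = 6 * j + 1 → ∀ a : ℚ, a = 64 ^ j - 1 →
  EQ p 2 ((256 : ℚ) ^ (j * p)) ((16 ^ j)⁻¹ * (1 + 2 / 3 * a))

/-- TW-B: `C(2k,k)^2/16^k` against `C(n,k) C(n+k,k) (-1)^k`, `p = 2n+1` -/
def StmtBin : Prop := ∀ (p n : ℕ) [Fact p.Prime], p = 2 * n + 1 → ∀ k < p,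
  EQ p 2 (((2 * k).choose k : ℚ) ^ 2 * (1 / 16) ^ k) ((n.choose k : ℚ) * ((n + k).choose k : ℚ) * (-1) ^ k)

end Pool.Agent.R488.Tw
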