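import Mathlib
import Pool.Agent.R488.Tw.Defs
import Pool.Agent.R488.Sq.Lin4
import Pool.Agent.R488.Nin.Main

set_option autoImplicit false

/-!
`-(1/2) 2F1(3/4,3/4;1;1/4)` (truncated) modulo `p^2`, `p = 12M+7`.
-/

namespace Pool.Agent.R488.Tw

open Finset Pool.Agent.R439.PL Pool.Agent.R439.PL.S4 Pool.Agent.R488.Tri Pool.Agent.R488.Cub
  Pool.Agent.R488.Nin Pool.Agent.R488.Sq

variable {p j M : ℕ} [hp : Fact p.Prime]

def gt (s : ℚ) (k : ℕ) : ℚ := (1 / 4) ^ k * ∏ i ∈ range k,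
  ((3 / 4 + i - 3 * s) * (3 / 4 + i + s) * ((1 + i - 2 * s) * (1 + i))⁻¹)

def GT (p : ℕ) (s : ℚ) : ℚ := ∑ k ∈ range p, gt s k

theorem lin_GT (hpj : p = 6 * j + 1) : Lin p (GT p) := by
  have u3 := U3 hpj
  have u4 := U4 hpj
  have m34 : (3 / 4 : ℚ) ∈ Zp p := by rw [div_eq_mul_inv]; exact mul_mem u3.2.1 u4.2.2
  have m14 : (1 / 4 : ℚ) ∈ Zp p := by rw [one_div]; exact u4.2.2
  refine Lin.sum fun k hk => ?_
  have hk' := mem_range.1 hk
  have h1 : Lin p (fun u => (1 / 4 : ℚ) ^ k + 0 * u) := Lin.affine (pow_mem m14 _) (zero_mem _)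
  have h2 : Lin p (fun u => ∏ i ∈ range k,
      (((3 / 4 + i : ℚ) + (-3) * u) * ((3 / 4 + i : ℚ) + 1 * u) *
        (((1 + i : ℚ) + (-2) * u) * ((1 + i : ℚ) + 0 * u))⁻¹)) := by
    refine Lin.prod fun i hi => ?_
    have hi' := mem_range.1 hi
    have a1 : (3 / 4 + i : ℚ) ∈ Zp p := add_mem m34 (nat_mem i)
    have u1 := U_nat (p := p) (k := 1 + i) (by omega) (by omega)
    push_cast at u1
    have m2 : (-2 : ℚ) ∈ Zp p := by exact_mod_cast int_mem (p := p) (-2)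
    have m3 : (-3 : ℚ) ∈ Zp p := by exact_mod_cast int_mem (p := p) (-3)
    refine ((Lin.affine a1 m3).mul (Lin.affine a1 (one_mem _))).mul (Lin.inv ((Lin.affine u1.2.1 m2).mul
      (Lin.affine u1.2.1 (zero_mem _))) ?_)
    simpa using u1.mul u1
  have h3 := h1.mul h2
  have e : (fun u => ((1 / 4 : ℚ) ^ k + 0 * u) * ∏ i ∈ range k,
      (((3 / 4 + i : ℚ) + (-3) * u) * ((3 / 4 + i : ℚ) + 1 * u) *
        (((1 + i : ℚ) + (-2) * u) * ((1 + i : ℚ) + 0 * u))⁻¹)) = fun u => gt u k := by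
    funext u
    rw [gt, zero_mul, add_zero]
    congr 1
    refine prod_congr rfl fun i _ => ?_
    rw [add_zero]
    congr 1
    · ring
    · congr 2; ring
  rwa [e] at h3

theorem FC_zero {k : ℕ} (h : 3 * M + 1 < k) : FC M k = 0 := by
  rw [FC]
  refine prod_eq_zero (i := 3 * M + 1) (mem_range.2 h) ?_
  have : (3 * (M : ℚ) + 1 - ((3 * M + 1 : ℕ) : ℚ)) = 0 := by push_cast; ring
  rw [this]; simp

theorem FD_zero {n k : ℕ} (h : n < k) : FD n k = 0 := by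
  rw [FD]
  refine prod_eq_zero (i := n) (mem_range.2 h) ?_
  rw [sub_self]; simp

theorem gt_one (hpM : p = 12 * M + 7) (k : ℕ) : gt (p / 12) k = FC M k := by
  have hpq : (p : ℚ) = 12 * M + 7 := by exact_mod_cast hpM
  have h9 : (1 / 4 : ℚ) ^ k = ∏ i ∈ range k, (1 / 4 : ℚ) := by rw [prod_const, card_range]
  rw [gt, FC, h9, ← prod_mul_distrib]
  refine prod_congr rfl fun i _ => ?_
  have e1 : (3 / 4 + i - 3 * ((p : ℚ) / 12) : ℚ) = -(3 * (M : ℚ) + 1 - i) := by rw [hpq]; ring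
  have e2 : (3 / 4 + i + (p : ℚ) / 12 : ℚ) = M + 4 / 3 + i := by rw [hpq]; ring
  have e3 : (1 + i - 2 * ((p : ℚ) / 12) : ℚ) = -(2 * (M : ℚ) + 1 / 6 - i) := by rw [hpq]; ring
  rw [e1, e2, e3, neg_mul (2 * (M : ℚ) + 1 / 6 - i), inv_neg, div_eq_mul_inv]
  ring

theorem gt_two (hpM : p = 12 * M + 7) (k : ℕ) : gt (-(p / 4)) k = FD (3 * M + 1) k := by
  have hpq : (p : ℚ) = 12 * M + 7 := by exact_mod_cast hpM
  have h9 : (1 / 4 : ℚ) ^ k = ∏ i ∈ range k, (1 / 4 : ℚ) := by rw [prod_const, card_range]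
  rw [gt, FD, h9, ← prod_mul_distrib]
  refine prod_congr rfl fun i _ => ?_
  have e1 : (3 / 4 + i - 3 * -((p : ℚ) / 4) : ℚ) = 3 * ((3 * M + 1 : ℕ) : ℚ) + 3 + i := by
    rw [hpq]; push_cast; ring
  have e2 : (3 / 4 + i + -((p : ℚ) / 4) : ℚ) = (i : ℚ) - ((3 * M + 1 : ℕ) : ℚ) := by rw [hpq]; push_cast; ring
  have e3 : (1 + i - 2 * -((p : ℚ) / 4) : ℚ) = 2 * ((3 * M + 1 : ℕ) : ℚ) + 5 / 2 + i := by
    rw [hpq]; push_cast; ring
  rw [e1, e2, e3, div_eq_mul_inv]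
  ring

theorem GT_one (h : StmtC) (hpM : p = 12 * M + 7) : GT p (p / 12) =
    3 * (27 / 16) ^ M * ∏ i ∈ range (2 * M), ((4 / 3 + i) / (7 / 6 + i) : ℚ) := by
  rw [← h M, GT, sum_congr rfl fun k _ => gt_one hpM k]
  symm
  exact sum_subset (range_subset_range.2 (by omega)) fun k _ hk => FC_zero (by have := mt mem_range.2 hk; omega)

theorem GT_two (h : StmtD) (hpM : p = 12 * M + 7) : GT p (-(p / 4)) =
    (16 / 27) ^ (3 * M + 1) * ∏ i ∈ range (2 * (3 * M + 1)), ((5 / 2 + i) / (7 / 3 + i) : ℚ) := by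
  rw [← h (3 * M + 1), GT, sum_congr rfl fun k _ => gt_two hpM k]
  symm
  exact sum_subset (range_subset_range.2 (by omega)) fun k _ hk => FD_zero (by have := mt mem_range.2 hk; omega)

/-- `(-4)^j ∏ (1/3+i)/(1/6+i) = C4 (1-b/2)` -/
theorem E1_eq (hpj : p = 6 * j + 1) {a b C4 C2 : ℚ}
    (hC2 : C2 = ((2 * j).choose j : ℚ)) (Ia : I p 1 a) (Ib : I p 1 b) (uC4 : U p C4)
    (mC2 : C2 ∈ Zp p) (E2 : EQ p 2 (p * H (2 * j)) (-3 * b)) (E1 : EQ p 2 (p * H j) (-2 * a - 3 * b))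
    (e6 : EQ p 2 (C4 * (1 + a)) ((-4) ^ j * C2)) :
    EQ p 2 ((-4) ^ j * ∏ i ∈ range j, ((1 / 3 + i) / (1 / 6 + i) : ℚ)) (C4 * (1 + -(1 / 2) * b)) := by
  have hpq : (p : ℚ) = 6 * j + 1 := by exact_mod_cast hpj
  have hj := j_pos hpj
  have u2 := U2 hpj
  have u3 := U3 hpj
  have u6 := U6 hpj
  have m12 : (1 / 2 : ℚ) ∈ Zp p := by rw [one_div]; exact u2.2.2
  have m13 : (1 / 3 : ℚ) ∈ Zp p := by rw [one_div]; exact u3.2.2
  have m16 : (1 / 6 : ℚ) ∈ Zp p := by rw [one_div]; exact u6.2.2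
  have m4j : (-4 : ℚ) ^ j ∈ Zp p := pow_mem (by exact_mod_cast int_mem (p := p) (-4)) _
  have I23a : I p 1 (-(2 / 3) * a) := by
    have : -(2 / 3) * a = (-(2 * 3⁻¹)) * a := by ring
    rw [this]; exact Ia.mulL (neg_mem (mul_mem u2.2.1 u3.2.2))
  have Iab : I p 1 (1 / 3 * a + 1 / 2 * b) := (Ia.mulL m13).add (Ib.mulL m12)
  have eG : EQ p 2 ((-4) ^ j * ∏ i ∈ range j, ((1 / 3 + i) / (1 / 6 + i) : ℚ))
      ((-4) ^ j * C2 * (1 + (-a + -(1 / 2) * b))) := by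
    have hd3 : I p 1 ((p : ℚ) / 3) := by rw [div_eq_mul_inv]; exact (I_p (p := p)).mulR u3.2.2
    have hd6 : I p 1 ((p : ℚ) / 6) := by rw [div_eq_mul_inv]; exact (I_p (p := p)).mulR u6.2.2
    have t1 := prodH (p := p) (a := 2 * j) (b := j) (by omega) (by omega) hd3
    have t2 := prodH (p := p) (a := j) (b := j) (by omega) (by omega) hd6
    rw [prod_choose _ _ (by omega), show 2 * j - j = j by omega, ← hC2] at t1
    rw [prod_choose _ _ (by omega), Nat.choose_self, Nat.sub_self] at t2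
    have hH0 : H 0 = 0 := by simp [H]
    rw [hH0, sub_zero, Nat.cast_one, one_mul] at t2
    have uf := U_fac (p := p) (k := j) (by omega)
    have t1' : EQ p 2 (∏ i ∈ range j, (((2 * j : ℕ) : ℚ) - i - p / 3)) (C2 * j.factorial * (1 + -(2 / 3) * a)) := by
      refine t1.trans ((EQ.refl (mul_mem mC2 uf.2.1)).mul ?_)
      have h' := EQ_lin (neg_mem m13) (E2.sub E1)
      have x1 : 1 + -(1 / 3) * (p * H (2 * j) - p * H j) = 1 - p / 3 * (H (2 * j) - H j) := by ring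
      have x2 : 1 + -(1 / 3) * (-3 * b - (-2 * a - 3 * b)) = 1 + -(2 / 3) * a := by ring
      rwa [x1, x2] at h'
    have t2' : EQ p 2 (∏ i ∈ range j, ((j : ℚ) - i - p / 6)) (j.factorial * (1 + (1 / 3 * a + 1 / 2 * b))) := by
      refine t2.trans ((EQ.refl uf.2.1).mul ?_)
      have h' := EQ_lin (neg_mem m16) E1
      have x1 : 1 + -(1 / 6) * (p * H j) = 1 - p / 6 * H j := by ring
      have x2 : 1 + -(1 / 6) * (-2 * a - 3 * b) = 1 + (1 / 3 * a + 1 / 2 * b) := by ring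
      rwa [x1, x2] at h'
    have ut : U p ((j.factorial : ℚ) * (1 + (1 / 3 * a + 1 / 2 * b))) := uf.mul (U_small Iab)
    have ut2 : U p (∏ i ∈ range j, ((j : ℚ) - i - p / 6)) := t2'.symm.unit (by norm_num) ut
    have t3 := t1'.div (by norm_num) t2' ut2
    have t4 : C2 * j.factorial * (1 + -(2 / 3) * a) / (j.factorial * (1 + (1 / 3 * a + 1 / 2 * b))) =
        C2 * ((1 + -(2 / 3) * a) * (1 + (1 / 3 * a + 1 / 2 * b))⁻¹) := by
      have b1 := uf.1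
      have b2 := (U_small Iab).1
      field_simp
    rw [t4] at t3
    have t5 := (EQ.refl (k := 2) (U_small I23a).2.1).mul (inv_small Iab)
    have t6 := mul_small I23a Iab.neg
    rw [← sub_eq_add_neg] at t6
    have t7 := t3.trans ((EQ.refl (k := 2) mC2).mul (t5.trans t6))
    have x5 : 1 + -(2 / 3) * a + -(1 / 3 * a + 1 / 2 * b) = 1 + (-a + -(1 / 2) * b) := by ring
    rw [x5] at t7
    have t8 : ∏ i ∈ range j, ((1 / 3 + i) / (1 / 6 + i) : ℚ) =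
        (∏ i ∈ range j, (((2 * j : ℕ) : ℚ) - i - p / 3)) / ∏ i ∈ range j, ((j : ℚ) - i - p / 6) := by
      rw [← prod_div_distrib]
      refine prod_congr rfl fun i _ => ?_
      have y1 : ((2 * j : ℕ) : ℚ) - i - p / 3 = -(1 / 3 + i) := by rw [hpq]; push_cast; ring
      have y2 : (j : ℚ) - i - p / 6 = -(1 / 6 + i) := by rw [hpq]; ring
      rw [y1, y2, neg_div_neg_eq]
    rw [t8]
    have t9 := (EQ.refl (k := 2) m4j).mul t7
    rwa [← mul_assoc] at t9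
  have Iabn : I p 1 (-a + -(1 / 2) * b) := Ia.neg.add (Ib.mulL (neg_mem m12))
  have g1 := e6.symm.mul (EQ.refl (k := 2) (U_small Iabn).2.1)
  have g2 := eG.trans g1
  have g3 := (EQ.refl (k := 2) uC4.2.1).mul (mul_small Ia Iabn)
  rw [← mul_assoc] at g3
  have g4 := g2.trans g3
  have x : 1 + a + (-a + -(1 / 2) * b) = 1 + -(1 / 2) * b := by ring
  rwa [x] at g4

/-- the product of `F2` -/
theorem F2_eq (hpj : p = 6 * j + 1) (hj1 : 1 ≤ j) {a b C3 : ℚ} (hC3 : C3 = ((3 * j).choose j : ℚ))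
    (Ia : I p 1 a) (Ib : I p 1 b) (E3 : EQ p 2 (p * H (3 * j)) (-2 * a))
    (E2 : EQ p 2 (p * H (2 * j)) (-3 * b)) (E1 : EQ p 2 (p * H j) (-2 * a - 3 * b)) :
    EQ p 2 (∏ i ∈ range (3 * j - 1), ((5 / 2 + i) / (7 / 3 + i) : ℚ))
      (8 / 9 * ((-1) ^ j * C3 * (1 + 5 / 3 * a))) := by
  have hpq : (p : ℚ) = 6 * j + 1 := by exact_mod_cast hpj
  have hj := j_pos hpj
  have u2 := U2 hpj
  have u3 := U3 hpj
  have m12 : (1 / 2 : ℚ) ∈ Zp p := by rw [one_div]; exact u2.2.2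
  have m13 : (1 / 3 : ℚ) ∈ Zp p := by rw [one_div]; exact u3.2.2
  have m89 : (8 / 9 : ℚ) ∈ Zp p := by
    have : (8 / 9 : ℚ) = 2 * 2 * 2 * (3⁻¹ * 3⁻¹) := by norm_num
    rw [this]; exact mul_mem (mul_mem (mul_mem u2.2.1 u2.2.1) u2.2.1) (mul_mem u3.2.2 u3.2.2)
  obtain ⟨m, hm⟩ : ∃ m, j = m + 1 := ⟨j - 1, by omega⟩
  -- exact form
  have P1 : (∏ i ∈ range (3 * j), (1 / 2 + i : ℚ)) = 3 / 4 * ∏ i ∈ range (3 * m + 1), (5 / 2 + i : ℚ) := by
    rw [show 3 * j = (3 * m + 1) + 1 + 1 by omega, prod_range_succ', prod_range_succ']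
    have : ∏ i ∈ range (3 * m + 1), (1 / 2 + ((i + 1 + 1 : ℕ) : ℚ)) = ∏ i ∈ range (3 * m + 1), (5 / 2 + i : ℚ) :=
      prod_congr rfl fun i _ => by push_cast; ring
    rw [this]; push_cast; ring
  have P2 : (∏ i ∈ range (2 * j), (1 / 3 + i : ℚ)) = 4 / 9 * ∏ i ∈ range (2 * m), (7 / 3 + i : ℚ) := by
    rw [show 2 * j = (2 * m) + 1 + 1 by omega, prod_range_succ', prod_range_succ']
    have : ∏ i ∈ range (2 * m), (1 / 3 + ((i + 1 + 1 : ℕ) : ℚ)) = ∏ i ∈ range (2 * m), (7 / 3 + i : ℚ) :=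
      prod_congr rfl fun i _ => by push_cast; ring
    rw [this]; push_cast; ring
  have hjm : (j : ℚ) = m + 1 := by exact_mod_cast hm
  have N : (∏ i ∈ range (3 * j - 1), (5 / 2 + i : ℚ)) = (∏ i ∈ range (3 * m + 1), (5 / 2 + i : ℚ)) * (p / 2) := by
    rw [show 3 * j - 1 = (3 * m + 1) + 1 by omega, prod_range_succ]
    congr 1
    rw [hpq, hjm]; push_cast; ring
  have D : (∏ i ∈ range (3 * j - 1), (7 / 3 + i : ℚ)) = (∏ i ∈ range (2 * m), (7 / 3 + i : ℚ)) * (p / 3) *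
      ∏ i ∈ range j, (1 + i + p / 3 : ℚ) := by
    rw [show 3 * j - 1 = (2 * m + 1) + j by omega, prod_range_add, prod_range_succ]
    congr 1
    · congr 1
      rw [hpq, hjm]; push_cast; ring
    · refine prod_congr rfl fun i _ => ?_
      rw [hpq, hjm]; push_cast; ring
  have uf3 := U_fac (p := p) (k := 3 * j) (by omega)
  have uf2 := U_fac (p := p) (k := 2 * j) (by omega)
  have uf1 := U_fac (p := p) (k := j) (by omega)
  have m1 := neg_mem' (p := p) j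
  -- P1
  have hd2 : I p 1 ((p : ℚ) / 2) := by rw [div_eq_mul_inv]; exact (I_p (p := p)).mulR u2.2.2
  have hd3 : I p 1 ((p : ℚ) / 3) := by rw [div_eq_mul_inv]; exact (I_p (p := p)).mulR u3.2.2
  have hH0 : H 0 = 0 := by simp [H]
  have t1 : EQ p 2 (∏ i ∈ range (3 * j), (1 / 2 + i : ℚ)) ((-1) ^ j * ((3 * j).factorial * (1 + a))) := by
    have t := prodH (p := p) (a := 3 * j) (b := 3 * j) (le_refl _) (by omega) hd2
    rw [prod_choose _ _ (le_refl _), Nat.choose_self, Nat.sub_self, hH0, sub_zero, Nat.cast_one, one_mul] at t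
    have e : ∏ i ∈ range (3 * j), (1 / 2 + i : ℚ) = (-1) ^ j *
        ∏ i ∈ range (3 * j), (((3 * j : ℕ) : ℚ) - i - p / 2) := by
      have : ∏ i ∈ range (3 * j), (1 / 2 + i : ℚ) = ∏ i ∈ range (3 * j), (-1 * (((3 * j : ℕ) : ℚ) - i - p / 2)) := by
        refine prod_congr rfl fun i _ => ?_
        rw [hpq]; push_cast; ring
      have e0 : (-1 : ℚ) ^ (3 * j) = (-1) ^ j := by rw [pow_mul]; norm_num
      rw [this, prod_mul_distrib, prod_const, card_range, e0]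
    rw [e]
    refine (EQ.refl m1).mul (t.trans ((EQ.refl uf3.2.1).mul ?_))
    have h' := EQ_lin (neg_mem m12) E3
    have x1 : 1 + -(1 / 2) * (p * H (3 * j)) = 1 - p / 2 * H (3 * j) := by ring
    have x2 : 1 + -(1 / 2) * (-2 * a) = 1 + a := by ring
    rwa [x1, x2] at h'
  have t2 := D1 (p := p) hpj E2
  have I3 : I p 1 (-(2 / 3) * a + -b) := by
    have : -(2 / 3) * a + -b = (-(2 * 3⁻¹)) * a + -b := by ring
    rw [this]; exact (Ia.mulL (neg_mem (mul_mem u2.2.1 u3.2.2))).add Ib.neg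
  have t3 : EQ p 2 (∏ i ∈ range j, (1 + i + p / 3 : ℚ)) (j.factorial * (1 + (-(2 / 3) * a + -b))) := by
    have t := prodH (p := p) (a := j) (b := j) (le_refl _) (by omega) hd3.neg
    rw [prod_choose _ _ (le_refl _), Nat.choose_self, Nat.sub_self, hH0, sub_zero, Nat.cast_one, one_mul] at t
    have e : ∏ i ∈ range j, (1 + i + p / 3 : ℚ) = ∏ i ∈ range j, ((j : ℚ) - i - -(p / 3)) := by
      rw [← prod_range_reflect (fun i => ((j : ℚ) - i - -(p / 3)))]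
      refine prod_congr rfl fun i hi => ?_
      have hi' := mem_range.1 hi
      rw [Nat.sub_sub, Nat.cast_sub (show 1 + i ≤ j by omega)]
      push_cast; ring
    rw [e]
    refine t.trans ((EQ.refl uf1.2.1).mul ?_)
    have h' := EQ_lin m13 E1
    have x1 : 1 + 1 / 3 * (p * H j) = 1 - -(p / 3) * H j := by ring
    have x2 : 1 + 1 / 3 * (-2 * a - 3 * b) = 1 + (-(2 / 3) * a + -b) := by ring
    rwa [x1, x2] at h'
  have ut : U p (((2 * j).factorial * (1 + b)) * (j.factorial * (1 + (-(2 / 3) * a + -b))) : ℚ) :=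
    (uf2.mul (U_small Ib)).mul (uf1.mul (U_small I3))
  have t23 := t2.mul t3
  have ut' := t23.symm.unit (by norm_num) ut
  have t4 := (EQ.refl (k := 2) m89).mul (t1.div (by norm_num) t23 ut')
  have hp0 : (p : ℚ) ≠ 0 := p_ne
  have ex : ∏ i ∈ range (3 * j - 1), ((5 / 2 + i) / (7 / 3 + i) : ℚ) = 8 / 9 *
      ((∏ i ∈ range (3 * j), (1 / 2 + i : ℚ)) / ((∏ i ∈ range (2 * j), (1 / 3 + i : ℚ)) *
        ∏ i ∈ range j, (1 + i + p / 3 : ℚ))) := by
    have n1 : (∏ i ∈ range (2 * j), (1 / 3 + i : ℚ)) ≠ 0 := fun h => ut'.1 (by rw [h, zero_mul])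
    have n2 : (∏ i ∈ range j, (1 + i + p / 3 : ℚ)) ≠ 0 := fun h => ut'.1 (by rw [h, mul_zero])
    rw [prod_div_distrib, N, D, P1, P2]
    rw [P2] at n1
    have n3 : (∏ i ∈ range (2 * m), (7 / 3 + i : ℚ)) ≠ 0 := fun h => n1 (by rw [h, mul_zero])
    field_simp
    ring
  rw [ex]
  refine t4.trans ?_
  -- simplify
  have hC : C3 * (j.factorial * (2 * j).factorial : ℚ) = (3 * j).factorial := by
    have h := Nat.choose_mul_factorial_mul_factorial (show j ≤ 3 * j by omega)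
    rw [show 3 * j - j = 2 * j by omega] at h
    rw [hC3, ← mul_assoc]; exact_mod_cast h
  have mC3 : C3 ∈ Zp p := by rw [hC3]; exact nat_mem _
  have e5 : (-1) ^ j * ((3 * j).factorial * (1 + a)) / (((2 * j).factorial * (1 + b)) *
      (j.factorial * (1 + (-(2 / 3) * a + -b))) : ℚ) =
      (-1) ^ j * C3 * ((1 + a) * (1 + b)⁻¹ * (1 + (-(2 / 3) * a + -b))⁻¹) := by
    have a1 := (U_small Ib).1
    have a2 := (U_small I3).1
    have a3 := uf2.1
    have a4 := uf1.1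
    rw [← hC]
    field_simp
  rw [e5]
  have k1 := inv_small Ib
  rw [sub_eq_add_neg] at k1
  have k2 := inv_small I3
  rw [sub_eq_add_neg] at k2
  have k3 := ((EQ.refl (k := 2) (U_small Ia).2.1).mul k1).trans (mul_small Ia Ib.neg)
  have k4 := k3.mul k2
  have x3 : 1 + a + -b = 1 + (a + -b) := by ring
  rw [x3] at k4
  have k5 := k4.trans (mul_small (Ia.add Ib.neg) I3.neg)
  have x4 : 1 + (a + -b) + -(-(2 / 3) * a + -b) = 1 + 5 / 3 * a := by ring
  rw [x4] at k5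
  exact (EQ.refl m89).mul ((EQ.refl (mul_mem m1 mC3)).mul k5)

end Pool.Agent.R488.Tw
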