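import Mathlib
import Pool.Agent.R488.Tw.Eval

set_option autoImplicit false

/-!
MP_d57286_nt: assembly.
-/

namespace Pool.Agent.R488.Tw

open Finset Pool.Agent.R439.PL Pool.Agent.R439.PL.S4 Pool.Agent.R488.Tri Pool.Agent.R488.Cub
  Pool.Agent.R488.Nin Pool.Agent.R488.Sq

variable {p j M : ℕ} [hp : Fact p.Prime]

/-- the value of the hypergeometric sum -/
theorem GT_eq (hC : StmtC) (hD : StmtD) (hpM : p = 12 * M + 7) (hjM : j = 2 * M + 1) {a b : ℚ}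
    (ha : a = 64 ^ j - 1) (hb : b = (-27) ^ j - 1) : EQ p 2 (-(1 / 2) * GT p 0)
    (3 * 27 ^ M * ((1 + -(1 / 2) * b) * (((4 * j).choose (2 * j) : ℚ) * ((16 ^ j)⁻¹ * (1 + 2 / 3 * a))))) := by
  have hpj : p = 6 * j + 1 := by omega
  obtain ⟨a', b', C4, C3, C2, hC4, hC3, hC2, ha', hb', Ia, Ib, uC4, mC3, mC2, E3, E2, E1, e1, e6⟩ :=
    facts harm hpj
  rw [← ha] at ha'
  rw [← hb] at hb'
  have ha2 : a = a' := ha'.symm
  have hb2 : b = b' := hb'.symm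
  clear ha' hb'
  subst ha2 hb2
  have hj := j_pos hpj
  have u2 := U2 hpj
  have u3 := U3 hpj
  have u4 := U4 hpj
  have u12 : U p (12 : ℚ) := by
    have : (12 : ℚ) = 3 * 4 := by norm_num
    rw [this]; exact u3.mul u4
  have m34 : (3 / 4 : ℚ) ∈ Zp p := by rw [div_eq_mul_inv]; exact mul_mem u3.2.1 u4.2.2
  have m14 : (1 / 4 : ℚ) ∈ Zp p := by rw [one_div]; exact u4.2.2
  have m12 : (1 / 2 : ℚ) ∈ Zp p := by rw [one_div]; exact u2.2.2
  have hd12 : I p 1 ((p : ℚ) / 12) := by rw [div_eq_mul_inv]; exact (I_p (p := p)).mulR u12.2.2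
  have hd4 : I p 1 ((p : ℚ) / 4) := by rw [div_eq_mul_inv]; exact (I_p (p := p)).mulR u4.2.2
  have h0 := Lin.two (lin_GT hpj) hd12 hd4.neg m34 m14 (by norm_num) (by ring)
  have k1 := E1_eq hpj hC2 Ia Ib uC4 mC2 E2 E1 e6
  have k2 := F2_eq hpj (by omega) hC3 Ia Ib E3 E2 E1
  have uk : U p ((16 : ℚ) ^ M) := by
    have : (16 : ℚ) = 4 * 4 := by norm_num
    rw [this]; exact (u4.mul u4).pow M
  have ut : U p ((27 : ℚ) ^ M) := by
    have : (27 : ℚ) = 3 * 3 * 3 := by norm_num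
    rw [this]; exact ((u3.mul u3).mul u3).pow M
  obtain ⟨κ, hκ⟩ : ∃ κ : ℚ, κ = 16 ^ M := ⟨_, rfl⟩
  obtain ⟨τ, hτ⟩ : ∃ τ : ℚ, τ = 27 ^ M := ⟨_, rfl⟩
  rw [← hκ] at uk
  rw [← hτ] at ut
  have n4j : (-4 : ℚ) ^ j = -4 * κ := by
    rw [hjM, pow_succ, pow_mul, hκ]; norm_num; ring
  have n16j : (16 : ℚ) ^ j = 16 * κ ^ 2 := by
    rw [hjM, pow_succ, hκ, ← pow_mul, mul_comm M 2]; ring
  have ea : 1 + a = 64 * κ ^ 3 := by
    have k : (64 : ℚ) ^ (2 * M) = (16 ^ M) ^ 3 := by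
      rw [pow_mul, ← pow_mul (16 : ℚ) M 3, mul_comm M 3, pow_mul (16 : ℚ) 3 M]; norm_num
    rw [ha, hjM, pow_succ, k, hκ]; ring
  have eb : 1 + b = -27 * τ ^ 2 := by
    have k : (-27 : ℚ) ^ (2 * M) = (27 ^ M) ^ 2 := by
      rw [pow_mul, ← pow_mul (27 : ℚ) M 2, mul_comm M 2, pow_mul (27 : ℚ) 2 M]; norm_num
    rw [hb, hjM, pow_succ, k, hτ]; ring
  have hone : (-1 : ℚ) ^ j = -1 := by
    rw [hjM, pow_succ, pow_mul]; norm_num
  -- F1
  have F1 : EQ p 2 (GT p (p / 12)) (-(3 / 8) * (τ * (κ * κ)⁻¹) * (C4 * (1 + -(1 / 2) * b))) := by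
    have h1 := GT_one hC hpM
    have e : GT p (p / 12) = -(3 / 8) * (τ * (κ * κ)⁻¹) *
        ((-4) ^ j * ∏ i ∈ range j, ((1 / 3 + i) / (1 / 6 + i) : ℚ)) := by
      have e2 : ∏ i ∈ range j, ((1 / 3 + i) / (1 / 6 + i) : ℚ) =
          2 * ∏ i ∈ range (2 * M), ((4 / 3 + i) / (7 / 6 + i) : ℚ) := by
        rw [hjM, prod_range_succ']
        have : ∏ i ∈ range (2 * M), ((1 / 3 + ((i + 1 : ℕ) : ℚ)) / (1 / 6 + ((i + 1 : ℕ) : ℚ))) =
            ∏ i ∈ range (2 * M), ((4 / 3 + i) / (7 / 6 + i) : ℚ) :=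
          prod_congr rfl fun i _ => by
            congr 1
            · push_cast; ring
            · push_cast; ring
        rw [this]; push_cast; ring
      rw [h1, e2, n4j, div_pow, ← hκ, ← hτ]
      have a1 := uk.1
      field_simp
      ring
    rw [e]
    have mm : -(3 / 8) * (τ * (κ * κ)⁻¹) ∈ Zp p := by
      have : (-(3 / 8) : ℚ) = -(3 * (2⁻¹ * 4⁻¹)) := by norm_num
      rw [this]
      exact mul_mem (neg_mem (mul_mem u3.2.1 (mul_mem u2.2.2 u4.2.2))) (mul_mem ut.2.1 (uk.mul uk).2.2)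
    exact (EQ.refl mm).mul k1
  -- F2
  have I32b : I p 1 (-(3 / 2) * b) := by
    have : -(3 / 2) * b = (-(3 * 2⁻¹)) * b := by ring
    rw [this]; exact Ib.mulL (neg_mem (mul_mem u3.2.1 u2.2.2))
  have m5 : (5 : ℚ) ∈ Zp p := by exact_mod_cast nat_mem (p := p) 5
  have I53a : I p 1 (5 / 3 * a) := by
    have : 5 / 3 * a = (5 * 3⁻¹) * a := by ring
    rw [this]; exact Ia.mulL (mul_mem m5 u3.2.2)
  have F2 : EQ p 2 (GT p (-(p / 4))) (-(3 / 8) * (τ * (κ * κ)⁻¹) * (C4 * (1 + (8 / 3 * a + -(1 / 2) * b)))) := by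
    have h1 := GT_two hD hpM
    rw [show 2 * (3 * M + 1) = 3 * j - 1 by omega] at h1
    have m1627 : ((16 / 27 : ℚ)) ^ (3 * M + 1) ∈ Zp p := by
      have : (16 / 27 : ℚ) = 4 * 4 * (3⁻¹ * 3⁻¹ * 3⁻¹) := by norm_num
      rw [this]; exact pow_mem (mul_mem (mul_mem u4.2.1 u4.2.1) (mul_mem (mul_mem u3.2.2 u3.2.2) u3.2.2)) _
    have h2 := (EQ.refl (k := 2) m1627).mul k2
    rw [← h1] at h2
    refine h2.trans ?_
    -- C3 in terms of C4
    have c3 : EQ p 2 C3 ((16 ^ j)⁻¹ * (C4 * (1 + 3 / 2 * b))) := by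
      have u16 : U p ((16 : ℚ) ^ j) := by
        have : (16 : ℚ) = 4 * 4 := by norm_num
        rw [this]; exact (u4.mul u4).pow j
      have I32b' : I p 1 (3 / 2 * b) := by
        have : 3 / 2 * b = (3 * 2⁻¹) * b := by ring
        rw [this]; exact Ib.mulL (mul_mem u3.2.1 u2.2.2)
      have g1 := (EQ.refl (k := 2) u16.2.2).mul (e1.mul (EQ.refl (k := 2) (U_small I32b').2.1))
      have g2 : (16 ^ j)⁻¹ * (16 ^ j * C3 * (1 + -(3 / 2) * b) * (1 + 3 / 2 * b)) =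
          C3 * ((1 + -(3 / 2) * b) * (1 + 3 / 2 * b)) := by
        have a1 := u16.1
        field_simp
      rw [g2] at g1
      have g3 := (EQ.refl (k := 2) mC3).mul (mul_small I32b I32b')
      have g4 : C3 * (1 + -(3 / 2) * b + 3 / 2 * b) = C3 := by ring
      rw [g4] at g3
      exact (g1.trans g3).symm
    have m89 : (8 / 9 : ℚ) ∈ Zp p := by
      have : (8 / 9 : ℚ) = 2 * 2 * 2 * (3⁻¹ * 3⁻¹) := by norm_num
      rw [this]; exact mul_mem (mul_mem (mul_mem u2.2.1 u2.2.1) u2.2.1) (mul_mem u3.2.2 u3.2.2)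
    have m1 := neg_mem' (p := p) j
    have h3 := (EQ.refl (k := 2) m1627).mul ((EQ.refl (k := 2) m89).mul
      (((EQ.refl (k := 2) m1).mul c3).mul (EQ.refl (k := 2) (U_small I53a).2.1)))
    refine h3.trans ?_
    have e : (16 / 27 : ℚ) ^ (3 * M + 1) * (8 / 9 * ((-1) ^ j * ((16 ^ j)⁻¹ * (C4 * (1 + 3 / 2 * b))) *
        (1 + 5 / 3 * a))) = -(3 / 8) * (τ * (κ * κ)⁻¹) * (C4 *
        ((1 + a) * ((1 + b)⁻¹ * (1 + b)⁻¹) * ((1 + 3 / 2 * b) * (1 + 5 / 3 * a)))) := by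
      rw [ea, eb, hone, n16j, pow_succ, pow_mul', div_pow, ← hκ, ← hτ]
      have a1 := uk.1
      have a2 := ut.1
      field_simp
      ring
    rw [e]
    have mm : -(3 / 8) * (τ * (κ * κ)⁻¹) ∈ Zp p := by
      have : (-(3 / 8) : ℚ) = -(3 * (2⁻¹ * 4⁻¹)) := by norm_num
      rw [this]
      exact mul_mem (neg_mem (mul_mem u3.2.1 (mul_mem u2.2.2 u4.2.2))) (mul_mem ut.2.1 (uk.mul uk).2.2)
    refine (EQ.refl mm).mul ((EQ.refl uC4.2.1).mul ?_)
    have I32b' : I p 1 (3 / 2 * b) := by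
      have : 3 / 2 * b = (3 * 2⁻¹) * b := by ring
      rw [this]; exact Ib.mulL (mul_mem u3.2.1 u2.2.2)
    have s1 := inv_small Ib
    rw [sub_eq_add_neg] at s1
    have s2 := (s1.mul s1).trans (mul_small Ib.neg Ib.neg)
    have x1 : 1 + -b + -b = 1 + (-b + -b) := by ring
    rw [x1] at s2
    have s3 := ((EQ.refl (k := 2) (U_small Ia).2.1).mul s2).trans (mul_small Ia (Ib.neg.add Ib.neg))
    have x2 : 1 + a + (-b + -b) = 1 + (a + (-b + -b)) := by ring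
    rw [x2] at s3
    have s4 := mul_small I32b' I53a
    have x3 : 1 + 3 / 2 * b + 5 / 3 * a = 1 + (3 / 2 * b + 5 / 3 * a) := by ring
    rw [x3] at s4
    have s5 := (s3.mul s4).trans (mul_small (Ia.add (Ib.neg.add Ib.neg)) (I32b'.add I53a))
    have x4 : 1 + (a + (-b + -b)) + (3 / 2 * b + 5 / 3 * a) = 1 + (8 / 3 * a + -(1 / 2) * b) := by ring
    rwa [x4] at s5
  -- combine
  have h1 := h0.trans (((EQ.refl (k := 2) m34).mul F1).add ((EQ.refl (k := 2) m14).mul F2))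
  have h2 := (EQ.refl (k := 2) (neg_mem m12)).mul h1
  refine h2.trans ?_
  have e : -(1 / 2) * (3 / 4 * (-(3 / 8) * (τ * (κ * κ)⁻¹) * (C4 * (1 + -(1 / 2) * b))) +
      1 / 4 * (-(3 / 8) * (τ * (κ * κ)⁻¹) * (C4 * (1 + (8 / 3 * a + -(1 / 2) * b))))) =
      3 * τ * (C4 * (16 ^ j)⁻¹) * (1 + -(1 / 2) * b + 2 / 3 * a) := by
    rw [n16j]
    have a1 := uk.1
    field_simp
    ring
  rw [e, ← hτ, ← hC4]
  have I12b : I p 1 (-(1 / 2) * b) := Ib.mulL (neg_mem m12)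
  have I23a : I p 1 (2 / 3 * a) := by
    have : 2 / 3 * a = (2 * 3⁻¹) * a := by ring
    rw [this]; exact Ia.mulL (mul_mem u2.2.1 u3.2.2)
  have u16 : U p ((16 : ℚ) ^ j) := by
    have : (16 : ℚ) = 4 * 4 := by norm_num
    rw [this]; exact (u4.mul u4).pow j
  have mm : 3 * τ * (C4 * (16 ^ j)⁻¹) ∈ Zp p := mul_mem (mul_mem u3.2.1 ut.2.1) (mul_mem uC4.2.1 u16.2.2)
  have h3 := (EQ.refl (k := 2) mm).mul (mul_small I12b I23a).symm
  have e2 : 3 * τ * (C4 * (16 ^ j)⁻¹) * ((1 + -(1 / 2) * b) * (1 + 2 / 3 * a)) =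
      3 * τ * ((1 + -(1 / 2) * b) * (C4 * ((16 ^ j)⁻¹ * (1 + 2 / 3 * a)))) := by ring
  rwa [e2] at h3

theorem dvd_of_I {x : ℤ} (h : I p 1 (x : ℚ)) : (p : ℤ) ∣ x := by
  obtain ⟨y, ⟨c, d, hd, rfl⟩, h⟩ := h
  have hd0 : (d : ℚ) ≠ 0 := by
    intro h; apply hd; have : d = 0 := by exact_mod_cast h
    rw [this]; exact dvd_zero _
  have h1 : (x : ℚ) * d = p * c := by rw [h]; field_simp
  have h2 : x * d = p * c := by exact_mod_cast h1
  exact ((pz (p := p)).dvd_or_dvd ⟨c, h2⟩).resolve_right hd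

theorem I_of_dvd {x : ℤ} {k : ℕ} (h : (p : ℤ) ^ k ∣ x) : I p k (x : ℚ) := by
  obtain ⟨c, rfl⟩ := h
  exact ⟨c, int_mem c, by push_cast; ring⟩

/-- the final step -/
theorem final (hJ : StmtJ) (hS : StmtSgn) (hF : StmtF) (hQ : StmtUniq) (hC : StmtC) (hD : StmtD)
    (hpM : p = 12 * M + 7) {x y : ℤ} (hxy : (p : ℤ) = x ^ 2 + 3 * y ^ 2) (hy : y % 4 = 1) :
    EQ p 2 (-(1 / 2) * GT p 0) (2 * y - p / (6 * y)) := by
  obtain ⟨j, hjM⟩ : ∃ j, j = 2 * M + 1 := ⟨_, rfl⟩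
  have hpj : p = 6 * j + 1 := by omega
  obtain ⟨a, b, C4, C3, C2, hC4, hC3, hC2, ha, hb, Ia, Ib, uC4, mC3, mC2, E3, E2, E1, e1, e6⟩ :=
    facts harm hpj
  have u2 := U2 hpj
  have u3 := U3 hpj
  have u4 := U4 hpj
  have u6 := U6 hpj
  have m12 : (1 / 2 : ℚ) ∈ Zp p := by rw [one_div]; exact u2.2.2
  have m13 : (1 / 3 : ℚ) ∈ Zp p := by rw [one_div]; exact u3.2.2
  have I12b : I p 1 (-(1 / 2) * b) := Ib.mulL (neg_mem m12)
  have hg := GT_eq hC hD hpM hjM ha hb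
  rw [← hC4] at hg
  obtain ⟨A, B, t, hAB, hA, ht, hJS⟩ := hJ p j hpj
  have hf := hF p j hpj a ha
  have ut : U p ((27 : ℚ) ^ M) := by
    have : (27 : ℚ) = 3 * 3 * 3 := by norm_num
    rw [this]; exact ((u3.mul u3).mul u3).pow M
  obtain ⟨τ, hτ⟩ : ∃ τ : ℚ, τ = 27 ^ M := ⟨_, rfl⟩
  rw [← hτ] at ut
  have eb : 1 + b = -27 * τ ^ 2 := by
    have k : (-27 : ℚ) ^ (2 * M) = (27 ^ M) ^ 2 := by
      rw [pow_mul, ← pow_mul (27 : ℚ) M 2, mul_comm M 2, pow_mul (27 : ℚ) 2 M]; norm_num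
    rw [hb, hjM, pow_succ, k, hτ]; ring
  -- C4 * w = -(A + B t)
  obtain ⟨l, hl⟩ : ∃ l : ℚ, l = (A : ℚ) + B * t := ⟨_, rfl⟩
  rw [← hl] at hJS
  have mt : (t : ℚ) ∈ Zp p := int_mem t
  have mA : (A : ℚ) ∈ Zp p := int_mem A
  have mB : (B : ℚ) ∈ Zp p := int_mem B
  have It : I p 2 ((t : ℚ) ^ 2 + 3) := by
    have := I_of_dvd (p := p) ht
    push_cast at this
    exact this
  have c1 : EQ p 2 (C4 * ((16 ^ j)⁻¹ * (1 + 2 / 3 * a))) (-l) := by
    have h1 := (JS_eq (p := p) hpj)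
    rw [← hC4] at h1
    have h2 := (h1.mul (EQ.refl (k := 2) hf.1)).symm.trans hJS
    have h3 := ((EQ.refl (k := 2) uC4.2.1).mul hf).symm
    have h4 := h3.trans ((h2.neg).symm.symm.trans (EQ.refl h2.neg.2.1) |>.symm.symm |> fun h => by
      have e : -(-C4 * (256 : ℚ) ^ (j * p)) = C4 * 256 ^ (j * p) := by ring
      rw [e] at h
      exact h)
    exact h4
  have ul : U p l := by
    have u16 : U p ((16 : ℚ) ^ j) := by
      have : (16 : ℚ) = 4 * 4 := by norm_num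
      rw [this]; exact (u4.mul u4).pow j
    have I23a : I p 1 (2 / 3 * a) := by
      have : 2 / 3 * a = (2 * 3⁻¹) * a := by ring
      rw [this]; exact Ia.mulL (mul_mem u2.2.1 u3.2.2)
    have h1 : U p (C4 * ((16 ^ j)⁻¹ * (1 + 2 / 3 * a))) := uC4.mul (u16.inv.mul (U_small I23a))
    have h2 := U_neg (c1.unit (by norm_num) h1)
    rwa [neg_neg] at h2
  -- theta
  obtain ⟨θ, hθ⟩ : ∃ θ : ℚ, θ = 9 * τ * (1 + -(1 / 2) * b) := ⟨_, rfl⟩
  have mθ : θ ∈ Zp p := by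
    rw [hθ]
    have : (9 : ℚ) = 3 * 3 := by norm_num
    rw [this]
    exact mul_mem (mul_mem (mul_mem u3.2.1 u3.2.1) ut.2.1) (U_small I12b).2.1
  have hθ2 : I p 2 (θ ^ 2 + 3) := by
    have e : θ ^ 2 + 3 = 9 / 4 * (b * b) + -(3 / 4) * (b * b) * b := by
      have : θ ^ 2 = -3 * (1 + b) * ((1 + -(1 / 2) * b) * (1 + -(1 / 2) * b)) := by
        rw [hθ, eb]; ring
      rw [this]; ring
    rw [e]
    have m94 : (9 / 4 : ℚ) ∈ Zp p := by
      have : (9 / 4 : ℚ) = 3 * 3 * 4⁻¹ := by norm_num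
      rw [this]; exact mul_mem (mul_mem u3.2.1 u3.2.1) u4.2.2
    have m34 : (-(3 / 4) : ℚ) ∈ Zp p := by
      have : (-(3 / 4) : ℚ) = -(3 * 4⁻¹) := by norm_num
      rw [this]; exact neg_mem (mul_mem u3.2.1 u4.2.2)
    have hbb : I p 2 (b * b) := Ib.mul Ib
    exact (hbb.mulL m94).add ((hbb.mulL m34).mulR Ib.mem)
  have utt : U p (t : ℚ) := by
    refine U_of_not_I mt fun h => ?_
    have h1 : I p 1 (3 : ℚ) := by
      have e : (3 : ℚ) = ((t : ℚ) ^ 2 + 3) - t * t := by ring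
      rw [e]; exact (It.mono (by norm_num)).sub (h.mulL mt)
    exact u3.not_I (by norm_num) h1
  have hε : ∃ ε : ℤ, (ε = 1 ∨ ε = -1) ∧ I p 2 (θ - ε * t) := by
    have h1 : I p 2 ((θ - t) * (θ + t)) := by
      have e : (θ - t) * (θ + t) = (θ ^ 2 + 3) - ((t : ℚ) ^ 2 + 3) := by ring
      rw [e]; exact hθ2.sub It
    by_cases h : I p 1 (θ - t)
    · have h2 : U p (θ + t) := by
        refine U_of_not_I (add_mem mθ mt) fun h' => ?_
        have h3 : I p 1 (2 * (t : ℚ)) := by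
          have e : 2 * (t : ℚ) = (θ + t) - (θ - t) := by ring
          rw [e]; exact h'.sub h
        exact (u2.mul utt).not_I (by norm_num) h3
      refine ⟨1, Or.inl rfl, ?_⟩
      rw [mul_comm] at h1
      have := h2.cancel h1
      simpa using this
    · have h2 : U p (θ - t) := U_of_not_I (sub_mem mθ mt) h
      refine ⟨-1, Or.inr rfl, ?_⟩
      have := h2.cancel h1
      have e : θ - ((-1 : ℤ) : ℚ) * t = θ + t := by push_cast; ring
      rwa [e]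
  obtain ⟨ε, hε1, hε2⟩ := hε
  have hεε : (ε : ℚ) * ε = 1 := by
    rcases hε1 with h | h <;> rw [h] <;> norm_num
  have mε : (ε : ℚ) ∈ Zp p := int_mem ε
  -- conjugate
  obtain ⟨μ, hμ⟩ : ∃ μ : ℚ, μ = (A : ℚ) - B * t := ⟨_, rfl⟩
  have mμ : μ ∈ Zp p := by rw [hμ]; exact sub_mem mA (mul_mem mB mt)
  have hlμ : I p 2 (l * μ - p) := by
    have e : l * μ - p = -(B : ℚ) * B * ((t : ℚ) ^ 2 + 3) := by
      have h : ((p : ℤ) : ℚ) = (A : ℚ) ^ 2 + 3 * (B : ℚ) ^ 2 := by exact_mod_cast congrArg (Int.cast (R := ℚ)) hAB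
      have h' : (p : ℚ) = (A : ℚ) ^ 2 + 3 * (B : ℚ) ^ 2 := by exact_mod_cast h
      rw [hl, hμ, h']; ring
    rw [e]; exact It.mulL (mul_mem (neg_mem mB) mB)
  have Iμ : I p 1 μ := by
    refine ul.cancel ?_
    have e : l * μ = (l * μ - p) + p := by ring
    rw [e]; exact (hlμ.mono (by norm_num)).add I_p
  have uB : U p (B : ℚ) := by
    refine U_of_not_I mB fun h => ?_
    have h1 : I p 1 l := by
      have e : l = μ + 2 * t * B := by rw [hl, hμ]; ring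
      rw [e]; exact Iμ.add (h.mulL (mul_mem u2.2.1 mt))
    exact ul.not_I (by norm_num) h1
  -- y = ε B
  have hy0 : (ε * B) % 4 = 1 := by
    refine hS p M hp.out hpM A (ε * B) ?_ hA (dvd_of_I ?_)
    · have : (ε * B) ^ 2 = B ^ 2 := by
        rcases hε1 with h | h <;> rw [h] <;> ring
      rw [this]; exact hAB
    · have e : ((A - ε * B * 9 * 27 ^ M : ℤ) : ℚ) = μ - (ε * B) * (θ - ε * t) + (ε * B) * (9 * τ * (-(1 / 2) * b)) := by
        have e1 : (ε : ℚ) * B * (ε * t) = B * t := by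
          linear_combination ((B : ℚ) * t) * hεε
        push_cast
        rw [hμ, hθ, ← hτ, mul_sub, e1]; ring
      rw [e]
      have m9 : (9 : ℚ) * τ ∈ Zp p := by
        have : (9 : ℚ) = 3 * 3 := by norm_num
        rw [this]; exact mul_mem (mul_mem u3.2.1 u3.2.1) ut.2.1
      exact (Iμ.sub ((hε2.mono (by norm_num)).mulL (mul_mem mε mB))).add
        ((I12b.mulL m9).mulL (mul_mem mε mB))
  have hyB : y = ε * B := by
    have h1 : (p : ℤ) = A ^ 2 + 3 * (ε * B) ^ 2 := by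
      have : (ε * B) ^ 2 = B ^ 2 := by
        rcases hε1 with h | h <;> rw [h] <;> ring
      rw [this]; exact hAB
    rcases hQ p hp.out x y A (ε * B) hxy h1 with h | h
    · exact h
    · omega
  have uy : U p (y : ℚ) := by
    rw [hyB]
    push_cast
    refine U.mul ?_ uB
    rcases hε1 with h | h <;> rw [h]
    · simpa using U.one
    · simpa using U_neg (p := p) U.one
  -- final congruence
  have mfin : (2 : ℚ) * y - p / (6 * y) ∈ Zp p :=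
    sub_mem (mul_mem u2.2.1 uy.2.1) (by rw [div_eq_mul_inv]; exact mul_mem p_mem (u6.mul uy).2.2)
  have hg2 := (EQ.refl (k := 2) (mul_mem (mul_mem m13 mθ) (one_mem (Zp p)))).mul c1
  have e1' : 3 * 27 ^ M * ((1 + -(1 / 2) * b) * (C4 * ((16 ^ j)⁻¹ * (1 + 2 / 3 * a)))) =
      1 / 3 * θ * 1 * (C4 * ((16 ^ j)⁻¹ * (1 + 2 / 3 * a))) := by
    rw [hθ, hτ]; ring
  rw [e1'] at hg
  refine (hg.trans hg2).trans ⟨hg2.2.1, mfin, ?_⟩
  -- difference
  have uu6 := u6.mul uy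
  have hyq : (y : ℚ) = ε * B := by rw [hyB]; push_cast; ring
  -- multiply by the unit 6 y
  refine (u6.mul uy).cancel ?_
  have hy0' := uy.1
  have e : 6 * (y : ℚ) * (1 / 3 * θ * 1 * -l - (2 * y - p / (6 * y))) =
      -(2 * (y * l)) * (θ - ε * t) + -(2 * (l * l - l * μ)) * 0 + (-(2 * (B * l)) * t - 12 * (B * B) + p) := by
    have e2 : 6 * (y : ℚ) * (2 * y - p / (6 * y)) = 12 * (y * y) - p := by
      field_simp
      ring
    have e3 : (y : ℚ) * y = B * B := by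
      rw [hyq]; linear_combination ((B : ℚ) * B) * hεε
    have e4 : (y : ℚ) * ε = B := by
      rw [hyq]; linear_combination (B : ℚ) * hεε
    rw [mul_sub, e2, e3]
    linear_combination (-2 * l * t) * e4
  rw [e]
  -- 2 B t = l - μ, so -(2 B l) t = -l (l - μ) = -l^2 + l μ; 12 B^2 = -(2 B t)^2 + 4 B^2 (t^2+3)
  have e5 : (-(2 * ((B : ℚ) * l)) * t - 12 * (B * B) + p) = -(4 * (B * B)) * ((t : ℚ) ^ 2 + 3) - (l * μ - p) +
      μ * μ := by
    have hBt : 2 * (B : ℚ) * t = l - μ := by rw [hl, hμ]; ring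
    linear_combination (-l + 2 * B * t + (l - μ)) * hBt
  rw [e5]
  have m4BB : -(4 * ((B : ℚ) * B)) ∈ Zp p := neg_mem (mul_mem u4.2.1 (mul_mem mB mB))
  have m2yl : -(2 * ((y : ℚ) * l)) ∈ Zp p := neg_mem (mul_mem u2.2.1 (mul_mem uy.2.1 ul.2.1))
  rw [mul_zero, add_zero]
  exact (hε2.mulL m2yl).add (((It.mulL m4BB).sub hlμ).add (Iμ.mul Iμ))

end Pool.Agent.R488.Tw
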