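import Mathlib
import Pool.Agent.R488.Tw.Defs
import Pool.Agent.R488.Cub.Eval2

set_option autoImplicit false

/-!
TW-B: `C(2k,k)^2/16^k` against `C(n,k) C(n+k,k) (-1)^k` modulo `p^2`, `p = 2n+1`.
-/

namespace Pool.Agent.R488.Tw

open Finset Pool.Agent.R439.PL Pool.Agent.R488.Cub

theorem bin_C4 (m : ℕ) : ((2 * m).choose m : ℚ) = 4 ^ m * ∏ i ∈ range m, ((1 / 2 + i) / (1 + i) : ℚ) := by
  induction m with
  | zero => simp
  | succ m ih =>
    have h := Nat.succ_mul_centralBinom_succ m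
    rw [Nat.centralBinom_eq_two_mul_choose, Nat.centralBinom_eq_two_mul_choose] at h
    have h2 : ((m : ℚ) + 1) * ((2 * (m + 1)).choose (m + 1) : ℚ) = 2 * (2 * m + 1) * ((2 * m).choose m : ℚ) := by
      exact_mod_cast h
    have a1 : (m : ℚ) + 1 ≠ 0 := by positivity
    apply mul_left_cancel₀ a1
    rw [h2, ih, prod_range_succ, pow_succ]
    have a2 : (1 : ℚ) + m ≠ 0 := by positivity
    field_simp
    ring

theorem bin_cc (n k : ℕ) : (n.choose k : ℚ) * ((n + k).choose k : ℚ) =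
    ∏ i ∈ range k, (((n : ℚ) - i) * (n + 1 + i) / ((1 + i) * (1 + i))) := by
  induction k with
  | zero => simp
  | succ k ih =>
    have h1 : ((n.choose (k + 1) : ℕ) : ℚ) * (k + 1) = n.choose k * ((n : ℚ) - k) := by
      by_cases hk : k ≤ n
      · have := Nat.choose_succ_right_eq n k
        have h2 : ((n.choose (k + 1) * (k + 1) : ℕ) : ℚ) = ((n.choose k * (n - k) : ℕ) : ℚ) := by rw [this]
        push_cast [Nat.cast_sub hk] at h2
        exact h2
      · push Not at hk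
        rw [Nat.choose_eq_zero_of_lt hk, Nat.choose_eq_zero_of_lt (by omega)]
        simp
    have h2 : (((n + (k + 1)).choose (k + 1) : ℕ) : ℚ) * (k + 1) = ((n + k).choose k : ℚ) * (n + k + 1) := by
      have := Nat.add_one_mul_choose_eq (n + k) k
      have h3 : (((n + k + 1) * (n + k).choose k : ℕ) : ℚ) = (((n + k + 1).choose (k + 1) * (k + 1) : ℕ) : ℚ) := by
        rw [this]
      push_cast at h3
      rw [show n + (k + 1) = n + k + 1 by ring]
      linear_combination -h3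
    have a1 : (k : ℚ) + 1 ≠ 0 := by positivity
    have a2 : (1 : ℚ) + k ≠ 0 := by positivity
    rw [prod_range_succ, ← ih]
    apply mul_left_cancel₀ (mul_ne_zero a1 a1)
    have e : ((k : ℚ) + 1) * (k + 1) * ((n.choose (k + 1) : ℚ) * ((n + (k + 1)).choose (k + 1) : ℚ)) =
        ((n.choose (k + 1) : ℕ) : ℚ) * (k + 1) * ((((n + (k + 1)).choose (k + 1) : ℕ) : ℚ) * (k + 1)) := by ring
    rw [e, h1, h2]
    field_simp
    ring

theorem twB : StmtBin := by
  intro p n hp hpn k hk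
  have hn : 0 < n := by
    rcases Nat.eq_zero_or_pos n with h | h
    · exfalso
      rw [h] at hpn
      exact hp.out.one_lt.ne' (by omega)
    · exact h
  have h2 : ¬ (p : ℤ) ∣ 2 := by
    intro h
    have h3 : (p : ℤ) ≤ 2 := Int.le_of_dvd (by norm_num) h
    omega
  have e1 : ((2 * k).choose k : ℚ) ^ 2 * (1 / 16) ^ k =
      ∏ i ∈ range k, ((1 / 2 + i) / (1 + i) : ℚ) ^ 2 := by
    rw [bin_C4, mul_pow, ← prod_pow, ← pow_mul, mul_comm k 2, pow_mul, mul_right_comm, ← mul_pow]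
    norm_num
  have e2 : (n.choose k : ℚ) * ((n + k).choose k : ℚ) * (-1) ^ k =
      ∏ i ∈ range k, ((((n : ℚ) - i) * (n + 1 + i) / ((1 + i) * (1 + i))) * (-1)) := by
    rw [bin_cc, prod_mul_distrib, prod_const, card_range]
  rw [e1, e2]
  refine EQ.prod fun i hi => ?_
  rw [mem_range] at hi
  have hu : U p ((1 : ℚ) + i) := by
    have : ¬ (p : ℤ) ∣ ((1 + i : ℕ) : ℤ) := by
      rw [Int.natCast_dvd_natCast]
      intro h
      have := Nat.le_of_dvd (by omega) h
      omega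
    have h3 := U_int this
    push_cast at h3
    exact h3
  have hu2 : U p (2 : ℚ) := by
    have := U_int h2
    exact_mod_cast this
  have hz : ((1 / 2 + i) / (1 + i) : ℚ) ∈ Zp p := by
    have h3 : ((1 / 2 + i) / (1 + i) : ℚ) = ((1 + 2 * i : ℕ) : ℚ) * ((2 : ℚ)⁻¹ * (1 + (i : ℚ))⁻¹) := by
      have := hu.1
      push_cast
      field_simp
    rw [h3]
    exact mul_mem (nat_mem _) (mul_mem hu2.2.2 hu.2.2)
  have hsq : ((1 / 2 + i) / (1 + i) : ℚ) ^ 2 ∈ Zp p := pow_mem hz 2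
  have hI : I p 2 (((1 / 2 + i) / (1 + i) : ℚ) ^ 2 -
      (((n : ℚ) - i) * (n + 1 + i) / ((1 + i) * (1 + i))) * (-1)) := by
    refine ⟨((2 : ℚ)⁻¹ * (1 + (i : ℚ))⁻¹) ^ 2, pow_mem (mul_mem hu2.2.2 hu.2.2) 2, ?_⟩
    have h4 := hu.1
    rw [hpn]
    push_cast
    field_simp
    ring
  refine ⟨hsq, ?_, hI⟩
  have h5 := sub_mem hsq hI.mem
  rwa [sub_sub_cancel] at h5

end Pool.Agent.R488.Tw
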