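import Pool.Agent.R488.Tw.Defs

set_option autoImplicit false

/-!
TW-D (helper760): an evaluation of a terminating `2F1(1/4)` by a certificate.
-/

namespace Pool.Agent.R488.Tw

open Finset

namespace ND

theorem FD_zero (n : ℕ) : FD n 0 = 1 := by simp [FD]

theorem FD_succ (n k : ℕ) : FD n (k + 1) = FD n k *
    (((k : ℚ) - n) * (3 * n + 3 + k) / ((2 * n + 5 / 2 + k) * (1 + k)) * (1 / 4)) := by
  unfold FD
  rw [prod_range_succ]

theorem R1 (n k : ℕ) : FD n (k + 1) = FD n k *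
    (((k : ℚ) - n) * (3 * n + 3 + k) / (2 * (4 * n + 5 + 2 * k) * (1 + k))) := by
  rw [FD_succ]
  congr 1
  have h1 : (2 * (n : ℚ) + 5 / 2 + k) ≠ 0 := by positivity
  have h2 : (4 * (n : ℚ) + 5 + 2 * k) ≠ 0 := by positivity
  have h3 : (1 + (k : ℚ)) ≠ 0 := by positivity
  rw [div_mul_div_comm, div_eq_div_iff (by positivity) (by positivity)]
  ring

/-- the quotient -/
def cq (n k : ℚ) : ℚ :=
  -((3 * n + 3 + k) * (3 * n + 4 + k) * (3 * n + 5 + k) * (3 * n + 6 + k) * (4 * n + 5) * (4 * n + 7)) /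
    (6 * (3 * n + 4) * (3 * n + 5) * (4 * n + 5 + 2 * k) * (4 * n + 7 + 2 * k) *
      (4 * n + 9 + 2 * k) * (1 + k))

theorem R2 (n k : ℕ) : FD (n + 1) (k + 1) = cq n k * FD n k := by
  induction k with
  | zero =>
    rw [R1, FD_zero, FD_zero]
    unfold cq
    push_cast
    have h1 : (3 * (n : ℚ) + 4) ≠ 0 := by positivity
    have h2 : (3 * (n : ℚ) + 5) ≠ 0 := by positivity
    have h3 : (4 * (n : ℚ) + 5 + 2 * 0) ≠ 0 := by positivity
    have h4 : (4 * (n : ℚ) + 7 + 2 * 0) ≠ 0 := by positivity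
    have h5 : (4 * (n : ℚ) + 9 + 2 * 0) ≠ 0 := by positivity
    have h6 : (4 * ((n : ℚ) + 1) + 5 + 2 * 0) ≠ 0 := by positivity
    rw [one_mul, mul_one, div_eq_div_iff (by positivity) (by positivity)]
    ring
  | succ k ih =>
    rw [R1 (n + 1) (k + 1), ih, R1 n k]
    unfold cq
    push_cast
    have h1 : (3 * (n : ℚ) + 4) ≠ 0 := by positivity
    have h2 : (3 * (n : ℚ) + 5) ≠ 0 := by positivity
    have h3 : (4 * (n : ℚ) + 5 + 2 * k) ≠ 0 := by positivity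
    have h4 : (4 * (n : ℚ) + 7 + 2 * k) ≠ 0 := by positivity
    have h5 : (4 * (n : ℚ) + 9 + 2 * k) ≠ 0 := by positivity
    have h6 : (4 * ((n : ℚ) + 1) + 5 + 2 * (k + 1)) ≠ 0 := by positivity
    have h7 : (4 * (n : ℚ) + 7 + 2 * (k + 1)) ≠ 0 := by positivity
    have h8 : (4 * (n : ℚ) + 9 + 2 * (k + 1)) ≠ 0 := by positivity
    have h9 : (4 * (n : ℚ) + 5 + 2 * (k + 1)) ≠ 0 := by positivity
    have h10 : (1 + (k : ℚ)) ≠ 0 := by positivity
    have h11 : (1 + ((k : ℚ) + 1)) ≠ 0 := by positivity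
    field_simp
    ring

/-- the certificate -/
def ct (n k : ℚ) : ℚ :=
  (4 * n + 5) * (4 * n + 7) * (3 * n + 3 + k) * ((3 * n + 4) * (22 * n + 35) * (4 * n + 9) +
    (631 + 812 * n + 252 * n ^ 2) * k + (78 + 60 * n) * k ^ 2) /
    (3 * (3 * n + 4) * (4 * n + 5 + 2 * k) * (4 * n + 7 + 2 * k) * (4 * n + 9 + 2 * k))

theorem P1 (n K : ℕ) :
    ∑ k ∈ range (K + 1), (3 * (6 * (n : ℚ) + 7) * (3 * n + 5) * FD (n + 1) k -
      2 * (4 * n + 5) * (4 * n + 7) * FD n k) = ct n K * FD n K := by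
  induction K with
  | zero =>
    simp only [zero_add, sum_range_one, FD_zero]
    unfold ct
    push_cast
    have h1 : (3 * (n : ℚ) + 4) ≠ 0 := by positivity
    have h3 : (4 * (n : ℚ) + 5 + 2 * 0) ≠ 0 := by positivity
    have h4 : (4 * (n : ℚ) + 7 + 2 * 0) ≠ 0 := by positivity
    have h5 : (4 * (n : ℚ) + 9 + 2 * 0) ≠ 0 := by positivity
    rw [mul_one, mul_one, mul_one, eq_div_iff (by positivity)]
    ring
  | succ K ih =>
    rw [sum_range_succ, ih, R2, R1 n K]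
    unfold ct cq
    push_cast
    have h1 : (3 * (n : ℚ) + 4) ≠ 0 := by positivity
    have h2 : (3 * (n : ℚ) + 5) ≠ 0 := by positivity
    have h3 : (4 * (n : ℚ) + 5 + 2 * K) ≠ 0 := by positivity
    have h4 : (4 * (n : ℚ) + 7 + 2 * K) ≠ 0 := by positivity
    have h5 : (4 * (n : ℚ) + 9 + 2 * K) ≠ 0 := by positivity
    have h7 : (4 * (n : ℚ) + 7 + 2 * (K + 1)) ≠ 0 := by positivity
    have h8 : (4 * (n : ℚ) + 9 + 2 * (K + 1)) ≠ 0 := by positivity
    have h9 : (4 * (n : ℚ) + 5 + 2 * (K + 1)) ≠ 0 := by positivity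
    have h10 : (1 + (K : ℚ)) ≠ 0 := by positivity
    field_simp
    ring

theorem last (n : ℕ) : 3 * (6 * (n : ℚ) + 7) * (3 * n + 5) * FD (n + 1) (n + 1) =
    -(ct n n * FD n n) := by
  rw [R2]
  unfold ct cq
  have h1 : (3 * (n : ℚ) + 4) ≠ 0 := by positivity
  have h2 : (3 * (n : ℚ) + 5) ≠ 0 := by positivity
  have h3 : (4 * (n : ℚ) + 5 + 2 * n) ≠ 0 := by positivity
  have h4 : (4 * (n : ℚ) + 7 + 2 * n) ≠ 0 := by positivity
  have h5 : (4 * (n : ℚ) + 9 + 2 * n) ≠ 0 := by positivity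
  have h10 : (1 + (n : ℚ)) ≠ 0 := by positivity
  field_simp
  ring

theorem S_succ (n : ℕ) : 3 * (6 * (n : ℚ) + 7) * (3 * n + 5) * ∑ k ∈ range (n + 1 + 1), FD (n + 1) k =
    2 * (4 * n + 5) * (4 * n + 7) * ∑ k ∈ range (n + 1), FD n k := by
  have h := P1 n n
  rw [sum_sub_distrib, ← mul_sum, ← mul_sum] at h
  rw [sum_range_succ, mul_add, last]
  linear_combination h

end ND

open ND

theorem twD : StmtD := by
  intro n
  induction n with
  | zero => simp [FD]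
  | succ n ih =>
    have h := S_succ n
    rw [ih] at h
    have h1 : (3 * (6 * (n : ℚ) + 7) * (3 * n + 5)) ≠ 0 := by positivity
    apply mul_left_cancel₀ h1
    rw [h, show 2 * (n + 1) = 2 * n + 1 + 1 by ring, prod_range_succ, prod_range_succ, pow_succ]
    have h2 : ((7 : ℚ) / 3 + ((2 * n : ℕ) : ℚ)) ≠ 0 := by positivity
    have h3 : ((7 : ℚ) / 3 + ((2 * n + 1 : ℕ) : ℚ)) ≠ 0 := by positivity
    generalize (∏ i ∈ range (2 * n), ((5 / 2 + (i : ℚ)) / (7 / 3 + i))) = P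
    generalize ((16 : ℚ) / 27) ^ n = Q
    push_cast at h2 h3 ⊢
    field_simp
    ring

end Pool.Agent.R488.Tw
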