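import Mathlib
import Pool.Agent.R488.Cub.Jac
import Pool.Agent.R488.Tw.Defs

set_option autoImplicit false

/-!
TW-J: the sextic form of the cubic Jacobi sum modulo `p^2` (for MP_d57286_nt).
-/

namespace Pool.Agent.R488.Tw

open Finset Pool.Agent.R439.PL Pool.Agent.R488.Cub Pool.Agent.R488.Cub.Jac

namespace TJ

variable {p : ℕ} [hp : Fact p.Prime]

/-- parity of the class counts -/
theorem parity (h2 : (2 : ZMod p) ≠ 0) (χ : MulChar (ZMod p) ℂ) (t : ℂ) (ht0 : t ≠ 0) :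
    N χ t % 2 = if χ ((2 : ZMod p)⁻¹ * (2 : ZMod p)⁻¹) = t then 1 else 0 := by
  classical
  have hχ0 : χ 0 = 0 := MulChar.map_zero χ
  let A := {x : ZMod p // χ (x * (1 - x)) = t}
  have hf : ∀ x : A, χ ((1 - x.1) * (1 - (1 - x.1))) = t := by
    intro x
    have e : (1 - x.1) * (1 - (1 - x.1)) = x.1 * (1 - x.1) := by ring
    rw [e]
    exact x.2
  let f : Function.End A := fun x => ⟨1 - x.1, hf x⟩
  have hf2 : f ^ 2 ^ 1 = 1 := by
    funext x
    rw [pow_one]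
    change f (f x) = x
    apply Subtype.ext
    change 1 - (1 - x.1) = x.1
    ring
  have : Fact (Nat.Prime 2) := ⟨by norm_num⟩
  have hc := Equiv.Perm.card_fixedPoints_modEq hf2
  have hcard : N χ t = Fintype.card A := by
    unfold N
    rw [Fintype.card_subtype]
  have half : ∀ x : ZMod p, 1 - x = x ↔ x = (2 : ZMod p)⁻¹ := by
    intro x
    constructor
    · intro h
      have h3 : 2 * x = 1 := by linear_combination (-1 : ZMod p) * h
      field_simp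
      linear_combination h3
    · rintro rfl
      field_simp
      ring
  have hhalf : (2 : ZMod p)⁻¹ * (1 - (2 : ZMod p)⁻¹) = (2 : ZMod p)⁻¹ * (2 : ZMod p)⁻¹ := by
    field_simp
    ring
  have hfix : Fintype.card (Function.fixedPoints f) =
      if χ ((2 : ZMod p)⁻¹ * (2 : ZMod p)⁻¹) = t then 1 else 0 := by
    split_ifs with h
    · rw [Fintype.card_eq_one_iff]
      refine ⟨⟨⟨(2 : ZMod p)⁻¹, by rw [hhalf]; exact h⟩, ?_⟩, ?_⟩
      · apply Subtype.ext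
        exact (half _).2 rfl
      · rintro ⟨⟨y, hy⟩, hy2⟩
        apply Subtype.ext
        apply Subtype.ext
        exact (half y).1 (congrArg Subtype.val hy2)
    · rw [Fintype.card_eq_zero_iff]
      constructor
      rintro ⟨⟨y, hy⟩, hy2⟩
      have hy3 := (half y).1 (congrArg Subtype.val hy2)
      apply h
      rw [← hhalf, ← hy3]
      exact hy
  rw [hcard, ← hfix]
  have h5 : Fintype.card A % 2 = Fintype.card (Function.fixedPoints f) % 2 := hc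
  rw [h5]
  have h6 : Fintype.card (Function.fixedPoints f) < 2 := by
    rw [hfix]; split_ifs <;> norm_num
  exact Nat.mod_eq_of_lt h6

/-- the final algebra: `a` odd, `b`, `c` even -/
theorem final (p j : ℕ) (hpj : p = 6 * j + 1) (a b c : ℕ) (R X : ℤ) (hb : b % 2 = 0)
    (hc : c % 2 = 0) (hs : a + b + c + 2 = p)
    (hn : (a : ℤ) ^ 2 + (b : ℤ) ^ 2 + (c : ℤ) ^ 2 - a * b - a * c - b * c = p)
    (hR : (p : ℤ) ^ 2 ∣ R ^ 2 + R + 1)
    (hX : (p : ℤ) ^ 2 ∣ X - (a + b * R + c * R ^ 2)) :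
    ∃ A B t : ℤ, (p : ℤ) = A ^ 2 + 3 * B ^ 2 ∧ A % 3 = 2 ∧ (p : ℤ) ^ 2 ∣ t ^ 2 + 3 ∧
      (p : ℤ) ^ 2 ∣ X - (A + B * t) := by
  obtain ⟨b', rfl⟩ : ∃ b', b = 2 * b' := ⟨b / 2, by omega⟩
  obtain ⟨c', rfl⟩ : ∃ c', c = 2 * c' := ⟨c / 2, by omega⟩
  refine ⟨a - (b' + c'), b' - c', 2 * R + 1, ?_, ?_, ?_, ?_⟩
  · rw [← hn]; push_cast; ring
  · omega
  · obtain ⟨k, hk⟩ := hR
    exact ⟨4 * k, by linear_combination 4 * hk⟩
  · obtain ⟨k, hk⟩ := hR
    obtain ⟨l, hl⟩ := hX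
    refine ⟨l + 2 * c' * k, ?_⟩
    push_cast at hl
    linear_combination hl + 2 * (c' : ℤ) * hk

end TJ

open TJ

theorem twJ : StmtJ := by
  intro p j hp h
  have hj : 0 < j := by have := hp.out.one_lt; omega
  have hpz : Prime (p : ℤ) := Nat.prime_iff_prime_int.1 hp.out
  obtain ⟨g, hg⟩ := IsCyclic.exists_generator (α := (ZMod p)ˣ)
  have hcard : Fintype.card (ZMod p)ˣ = 6 * j := by rw [ZMod.card_units]; omega
  have hord : orderOf g = 6 * j := by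
    rw [orderOf_eq_card_of_forall_mem_zpowers hg, Nat.card_eq_fintype_card, hcard]
  obtain ⟨w, hw⟩ : ∃ w : ℂ, IsPrimitiveRoot w 3 := ⟨_, Complex.isPrimitiveRoot_exp 3 (by norm_num)⟩
  have hw3 : w ^ 3 = 1 := hw.pow_eq_one
  have hw1 : w ≠ 1 := hw.ne_one (by norm_num)
  have hw0 : w ≠ 0 := hw.ne_zero (by norm_num)
  have hw2 : w ^ 2 ≠ 1 := by
    intro h; apply hw1
    have : w ^ 3 = w ^ 2 * w := by ring
    rw [h, one_mul, hw3] at this
    exact this.symm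
  have hwu : Units.mk0 w hw0 ∈ rootsOfUnity (Fintype.card (ZMod p)ˣ) ℂ := by
    rw [mem_rootsOfUnity]
    apply Units.ext
    rw [Units.val_pow_eq_pow_val, Units.val_one, hcard]
    have : 6 * j = 3 * (2 * j) := by ring
    rw [this, pow_mul]
    change (w ^ 3) ^ (2 * j) = 1
    rw [hw3, one_pow]
  obtain ⟨χ, hχg⟩ : ∃ χ : MulChar (ZMod p) ℂ, χ (g : ZMod p) = w :=
    ⟨MulChar.ofRootOfUnity hwu hg, MulChar.ofRootOfUnity_spec hwu hg⟩
  have hlog : ∀ x : ZMod p, x ≠ 0 → ∃ n : ℕ, x = (g : ZMod p) ^ n := by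
    intro x hx
    have h1 := hg (Units.mk0 x hx)
    rw [← mem_powers_iff_mem_zpowers] at h1
    obtain ⟨n, hn⟩ := h1
    refine ⟨n, ?_⟩
    have h2 := congrArg Units.val hn
    simpa using h2.symm
  have hwn : ∀ n : ℕ, w ^ n = w ^ (n % 3) := by
    intro n
    conv_lhs => rw [← Nat.div_add_mod n 3]
    rw [pow_add, pow_mul, hw3, one_pow, one_mul]
  have hχ : ∀ x : ZMod p, x ≠ 0 → χ x = 1 ∨ χ x = w ∨ χ x = w ^ 2 := by
    intro x hx
    obtain ⟨n, rfl⟩ := hlog x hx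
    rw [map_pow, hχg, hwn]
    have h3 : n % 3 < 3 := Nat.mod_lt _ (by norm_num)
    interval_cases (n % 3) <;> simp
  have hχ3 : ∀ x : ZMod p, x ≠ 0 → χ x ^ 3 = 1 := by
    intro x hx
    obtain ⟨n, rfl⟩ := hlog x hx
    rw [map_pow, hχg, ← pow_mul, mul_comm, pow_mul, hw3, one_pow]
  have hχ0 : χ 0 = 0 := MulChar.map_zero χ
  have hχ1 : χ ≠ 1 := by
    intro h1
    rw [h1, MulChar.one_apply_coe] at hχg
    exact hw1 hχg.symm
  have hχ2 : χ * χ ≠ 1 := by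
    intro h1
    have h2 : (χ * χ) (g : ZMod p) = w ^ 2 := by rw [MulChar.mul_apply, hχg, pow_two]
    rw [h1, MulChar.one_apply_coe] at h2
    exact hw2 h2.symm
  -- the integer `R`
  obtain ⟨G, hG⟩ : ∃ G : ℕ, (G : ZMod p) = (g : ZMod p) := by
    have : NeZero p := ⟨hp.out.ne_zero⟩
    exact ⟨(g : ZMod p).val, ZMod.natCast_zmod_val _⟩
  obtain ⟨R, hR⟩ : ∃ R : ℤ, R = (G : ℤ) ^ (4 * j * p) := ⟨_, rfl⟩
  have hG6 : (p : ℤ) ∣ (G : ℤ) ^ (6 * j) - 1 := by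
    rw [← ZMod.intCast_zmod_eq_zero_iff_dvd]
    push_cast
    rw [hG, ← Units.val_pow_eq_pow_val, ← hord, pow_orderOf_eq_one, Units.val_one, sub_self]
  have hR3 : (p : ℤ) ^ 2 ∣ R ^ 3 - 1 := by
    have h1 := powp (p := p) hG6
    rw [one_pow] at h1
    have h2 : R ^ 3 - 1 = (((G : ℤ) ^ (6 * j)) ^ p - 1) * (((G : ℤ) ^ (6 * j)) ^ p + 1) := by
      have : R ^ 3 = (((G : ℤ) ^ (6 * j)) ^ p) ^ 2 := by
        rw [hR, ← pow_mul, ← pow_mul, ← pow_mul]
        congr 1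
        ring
      rw [this]; ring
    rw [h2]
    exact Dvd.dvd.mul_right h1 _
  have hR1 : ¬ (p : ℤ) ∣ R - 1 := by
    intro h1
    rw [← ZMod.intCast_zmod_eq_zero_iff_dvd, hR] at h1
    push_cast at h1
    rw [hG, ← Units.val_pow_eq_pow_val, sub_eq_zero, Units.val_eq_one] at h1
    have h2 := orderOf_dvd_of_pow_eq_one h1
    rw [hord] at h2
    obtain ⟨c, hc⟩ := h2
    have h3 : (2 * j) * (2 * p) = (2 * j) * (3 * c) := by
      have e1 : (2 * j) * (2 * p) = 4 * j * p := by ring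
      have e2 : (2 * j) * (3 * c) = 6 * j * c := by ring
      rw [e1, e2, hc]
    have h4 := Nat.eq_of_mul_eq_mul_left (by omega) h3
    omega
  have hRq : (p : ℤ) ^ 2 ∣ R ^ 2 + R + 1 := by
    have h1 : (p : ℤ) ^ 2 ∣ (R - 1) * (R ^ 2 + R + 1) := by
      have : (R - 1) * (R ^ 2 + R + 1) = R ^ 3 - 1 := by ring
      rw [this]; exact hR3
    have h2 : IsCoprime ((p : ℤ) ^ 2) (R - 1) := (hpz.coprime_iff_not_dvd.2 hR1).pow_left
    exact h2.dvd_of_dvd_mul_left h1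
  -- terms
  have ht3 : ((R : ZMod (p ^ 2))) ^ 3 = 1 := by
    have h1 : ((R ^ 3 - 1 : ℤ) : ZMod (p ^ 2)) = 0 := by
      rw [ZMod.intCast_zmod_eq_zero_iff_dvd]
      push_cast
      exact hR3
    push_cast at h1
    exact sub_eq_zero.1 h1
  have hterm : ∀ (x : ZMod p) (n : ℕ), x * (1 - x) = (g : ZMod p) ^ n →
      ((((x.val : ℤ) * (1 - (x.val : ℤ))) ^ (4 * j * p) : ℤ) : ZMod (p ^ 2)) =
        (R : ZMod (p ^ 2)) ^ (n % 3) := by
    intro x n hx
    have : NeZero p := ⟨hp.out.ne_zero⟩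
    have h1 : (p : ℤ) ∣ (x.val : ℤ) * (1 - (x.val : ℤ)) - (G : ℤ) ^ n := by
      rw [← ZMod.intCast_zmod_eq_zero_iff_dvd]
      push_cast
      rw [hG, ZMod.natCast_zmod_val, hx, sub_self]
    have h2 : ((((x.val : ℤ) * (1 - (x.val : ℤ))) ^ p - ((G : ℤ) ^ n) ^ p : ℤ) :
        ZMod (p ^ 2)) = 0 := by
      rw [ZMod.intCast_zmod_eq_zero_iff_dvd]
      exact_mod_cast powp (p := p) h1
    rw [Int.cast_sub, sub_eq_zero] at h2
    have h3 : (R : ZMod (p ^ 2)) ^ (n % 3) = (R : ZMod (p ^ 2)) ^ n := by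
      conv_rhs => rw [← Nat.div_add_mod n 3]
      rw [pow_add, pow_mul, ht3, one_pow, one_mul]
    rw [h3, hR]
    have e1 : 4 * j * p = p * (4 * j) := by ring
    rw [e1, pow_mul, Int.cast_pow _ (4 * j), h2]
    push_cast
    rw [← pow_mul, ← pow_mul, ← pow_mul]
    congr 1
    ring
  have hcls : ∀ (x : ZMod p) (i : ℕ), i < 3 → χ (x * (1 - x)) = w ^ i →
      ((((x.val : ℤ) * (1 - (x.val : ℤ))) ^ (4 * j * p) : ℤ) : ZMod (p ^ 2)) =
        (R : ZMod (p ^ 2)) ^ i := by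
    intro x i hi hx
    have hne : x * (1 - x) ≠ 0 := by
      intro h0
      rw [h0, hχ0] at hx
      exact pow_ne_zero i hw0 hx.symm
    obtain ⟨n, hn⟩ := hlog _ hne
    rw [hterm x n hn]
    congr 1
    rw [hn, map_pow, hχg, hwn] at hx
    exact hw.pow_inj (Nat.mod_lt _ (by norm_num)) hi hx
  have h4jp : 4 * j * p ≠ 0 := by
    have := hp.out.pos
    positivity
  have hsum := sum_classes (R := ZMod (p ^ 2)) χ w hw3 hw1 hχ
    (fun x => ((((x.val : ℤ) * (1 - (x.val : ℤ))) ^ (4 * j * p) : ℤ) : ZMod (p ^ 2)))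
    (R : ZMod (p ^ 2)) (by
      rw [ZMod.val_zero]
      simp [h4jp]) (by
      have : Fact (1 < p) := ⟨hp.out.one_lt⟩
      rw [ZMod.val_one]
      simp [h4jp])
    (fun x hx => by
      have := hcls x 0 (by norm_num) (by rw [hx, pow_zero])
      simpa using this)
    (fun x hx => by
      have := hcls x 1 (by norm_num) (by rw [hx, pow_one])
      simpa using this)
    (fun x hx => by
      have := hcls x 2 (by norm_num) hx
      simpa using this)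
  -- the integer Jacobi sum
  obtain ⟨Jz, hJz⟩ : ∃ Jz : ℤ, Jz = ∑ x ∈ range p, ((x : ℤ) * (1 - (x : ℤ))) ^ (4 * j * p) :=
    ⟨_, rfl⟩
  have hJS : JS p j = (Jz : ℚ) := by
    rw [hJz]; unfold JS; push_cast; rfl
  have h1 : (p : ℤ) ^ 2 ∣ Jz - (N χ 1 + N χ w * R + N χ (w ^ 2) * R ^ 2) := by
    have h2 : ((Jz - (N χ 1 + N χ w * R + N χ (w ^ 2) * R ^ 2) : ℤ) : ZMod (p ^ 2)) = 0 := by
      rw [hJz, sum_range_zmod (p := p) (fun x => ((x : ℤ) * (1 - (x : ℤ))) ^ (4 * j * p))]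
      rw [Int.cast_sub, Int.cast_sum, hsum]
      push_cast
      ring
    rw [ZMod.intCast_zmod_eq_zero_iff_dvd] at h2
    exact_mod_cast h2
  have hnorm := jac_sum χ w hw3 hw1 hχ hχ1 hχ2
  have hcount := tri_card w hw3 hw1 χ hχ
  -- the power of 4
  have htwo : (2 : ZMod p) ≠ 0 := by
    intro h2
    have h3 : ((2 : ℕ) : ZMod p) = 0 := by exact_mod_cast h2
    rw [ZMod.natCast_eq_zero_iff] at h3
    have := Nat.le_of_dvd (by norm_num) h3
    omega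
  obtain ⟨m, hm⟩ := hlog (4 : ZMod p) (by
    have : (4 : ZMod p) = 2 * 2 := by norm_num
    rw [this]; exact mul_ne_zero htwo htwo)
  have hχ4 : χ (4 : ZMod p) = w ^ (m % 3) := by rw [hm, map_pow, hχg, hwn]
  have hχq : χ ((2 : ZMod p)⁻¹ * (2 : ZMod p)⁻¹) * w ^ (m % 3) = 1 := by
    rw [← hχ4, ← map_mul]
    have : (2 : ZMod p)⁻¹ * (2 : ZMod p)⁻¹ * 4 = 1 := by field_simp; norm_num
    rw [this, map_one]
  have h4 : (p : ℤ) ^ 2 ∣ (4 : ℤ) ^ (4 * j * p) - R ^ (m % 3) := by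
    have h1 : (p : ℤ) ∣ (4 : ℤ) - (G : ℤ) ^ m := by
      rw [← ZMod.intCast_zmod_eq_zero_iff_dvd]
      push_cast
      rw [hG, hm, sub_self]
    have h2 : (((4 : ℤ) ^ p - ((G : ℤ) ^ m) ^ p : ℤ) : ZMod (p ^ 2)) = 0 := by
      rw [ZMod.intCast_zmod_eq_zero_iff_dvd]
      exact_mod_cast powp (p := p) h1
    rw [Int.cast_sub, sub_eq_zero] at h2
    have h3 : (R : ZMod (p ^ 2)) ^ (m % 3) = (R : ZMod (p ^ 2)) ^ m := by
      conv_rhs => rw [← Nat.div_add_mod m 3]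
      rw [pow_add, pow_mul, ht3, one_pow, one_mul]
    have h5 : (((4 : ℤ) ^ (4 * j * p) - R ^ (m % 3) : ℤ) : ZMod (p ^ 2)) = 0 := by
      rw [Int.cast_sub, Int.cast_pow R, h3, hR, sub_eq_zero]
      have e1 : 4 * j * p = p * (4 * j) := by ring
      rw [e1, pow_mul, Int.cast_pow _ (4 * j), h2]
      push_cast
      rw [← pow_mul, ← pow_mul, ← pow_mul]
      congr 1
      ring
    rw [ZMod.intCast_zmod_eq_zero_iff_dvd] at h5
    exact_mod_cast h5
  have hp0 := parity htwo χ 1 one_ne_zero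
  have hp1 := parity htwo χ w hw0
  have hp2 := parity htwo χ (w ^ 2) (pow_ne_zero 2 hw0)
  have hw12 : w ≠ w ^ 2 := by
    intro h; apply hw1
    have : w * 1 = w * w := by rw [mul_one]; rw [← pow_two]; exact h
    exact (mul_left_cancel₀ hw0 this).symm
  generalize χ ((2 : ZMod p)⁻¹ * (2 : ZMod p)⁻¹) = q at *
  have hX : ∃ A B t : ℤ, (p : ℤ) = A ^ 2 + 3 * B ^ 2 ∧ A % 3 = 2 ∧ (p : ℤ) ^ 2 ∣ t ^ 2 + 3 ∧
      (p : ℤ) ^ 2 ∣ Jz * 4 ^ (4 * j * p) - (A + B * t) := by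
    obtain ⟨c1, hc1⟩ := h1
    obtain ⟨c4, hc4⟩ := h4
    obtain ⟨k, hk⟩ := hRq
    have e4 : (4 : ℤ) ^ (4 * j * p) = R ^ (m % 3) + (p : ℤ) ^ 2 * c4 := by linear_combination hc4
    have eJ : Jz = (N χ 1 + N χ w * R + N χ (w ^ 2) * R ^ 2) + (p : ℤ) ^ 2 * c1 := by
      linear_combination hc1
    have hRq' : (p : ℤ) ^ 2 ∣ R ^ 2 + R + 1 := ⟨k, hk⟩
    have hm3 : m % 3 < 3 := Nat.mod_lt _ (by norm_num)
    generalize m % 3 = e at *
    interval_cases e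
    · -- q = 1
      have hq : q = 1 := by simpa using hχq
      rw [hq] at hp1 hp2
      rw [if_neg (Ne.symm hw1)] at hp1
      rw [if_neg (Ne.symm hw2)] at hp2
      refine final p j h (N χ 1) (N χ w) (N χ (w ^ 2)) R _ hp1 hp2 hcount ?_ hRq' ?_
      · linear_combination hnorm
      · rw [e4, eJ]
        exact ⟨c1 + ((N χ 1 : ℤ) + N χ w * R + N χ (w ^ 2) * R ^ 2) * c4 + (p : ℤ) ^ 2 * c1 * c4, by ring⟩
    · -- q = w^2
      have hq : q = w ^ 2 := by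
        have : q * w ^ 1 * w ^ 2 = w ^ 2 := by rw [hχq, one_mul]
        rw [mul_assoc, ← pow_add, hw3, mul_one] at this
        exact this
      rw [hq] at hp0 hp1
      rw [if_neg hw2] at hp0
      rw [if_neg (Ne.symm hw12)] at hp1
      refine final p j h (N χ (w ^ 2)) (N χ 1) (N χ w) R _ hp0 hp1 (by omega) ?_ hRq' ?_
      · linear_combination hnorm
      · rw [e4, eJ]
        exact ⟨c1 * R + ((N χ 1 : ℤ) + N χ w * R + N χ (w ^ 2) * R ^ 2) * c4 + (p : ℤ) ^ 2 * c1 * c4 + (N χ (w ^ 2) : ℤ) * (R - 1) * k, by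
          linear_combination ((N χ (w ^ 2) : ℤ) * (R - 1)) * hk⟩
    · -- q = w
      have hq : q = w := by
        have : q * w ^ 2 * w = w := by rw [hχq, one_mul]
        rw [mul_assoc, ← pow_succ, hw3, mul_one] at this
        exact this
      rw [hq] at hp0 hp2
      rw [if_neg hw1] at hp0
      rw [if_neg hw12] at hp2
      refine final p j h (N χ w) (N χ (w ^ 2)) (N χ 1) R _ hp2 hp0 (by omega) ?_ hRq' ?_
      · linear_combination hnorm
      · rw [e4, eJ]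
        exact ⟨c1 * R ^ 2 + ((N χ 1 : ℤ) + N χ w * R + N χ (w ^ 2) * R ^ 2) * c4 + (p : ℤ) ^ 2 * c1 * c4 + ((N χ w : ℤ) * (R - 1) + N χ (w ^ 2) * R * (R - 1)) * k, by
          linear_combination ((N χ w : ℤ) * (R - 1) + N χ (w ^ 2) * R * (R - 1)) * hk⟩
  obtain ⟨A, B, t, hA, hA3, ht, hX⟩ := hX
  refine ⟨A, B, t, hA, hA3, ht, ?_⟩
  have e256 : (256 : ℚ) ^ (j * p) = ((4 ^ (4 * j * p) : ℤ) : ℚ) := by
    push_cast
    rw [show (256 : ℚ) = 4 ^ 4 by norm_num, ← pow_mul]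
    congr 1
    ring
  rw [hJS, e256]
  obtain ⟨l, hl⟩ := hX
  refine ⟨mul_mem (int_mem _) (int_mem _), by exact_mod_cast int_mem (A + B * t), (l : ℚ), int_mem l, ?_⟩
  have hl' : ((Jz * 4 ^ (4 * j * p) - (A + B * t) : ℤ) : ℚ) = (((p : ℤ) ^ 2 * l : ℤ) : ℚ) := by rw [hl]
  push_cast at hl' ⊢
  linear_combination hl'

end Pool.Agent.R488.Tw
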