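import Pool.Agent.R488.Tw.Defs
import Pool.Agent.R488.Cub.Facts

set_option autoImplicit false

/-!
TW-Q and TW-F.
-/

namespace Pool.Agent.R488.Tw

open Finset Pool.Agent.R439.PL Pool.Agent.R488.Cub

theorem twQ : StmtUniq := by
  intro p hp x y x' y' h h'
  have hp0 : (0 : ℤ) < p := by exact_mod_cast hp.pos
  have hprime : Prime (p : ℤ) := Nat.prime_iff_prime_int.mp hp
  have key : ∀ D E : ℤ, (p : ℤ) ^ 2 = E ^ 2 + 3 * D ^ 2 → (p : ℤ) ∣ D → D = 0 := by
    intro D E hE hD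
    obtain ⟨k, rfl⟩ := hD
    by_contra hne
    have hk : k ≠ 0 := by
      rintro rfl
      exact hne (by ring)
    have hk1 : 1 ≤ k ^ 2 := by
      have := sq_pos_of_ne_zero (a := k) (by exact hk)
      omega
    have hp2 : 0 < (p : ℤ) ^ 2 := by positivity
    nlinarith [mul_le_mul_of_nonneg_left hk1 hp2.le, sq_nonneg E]
  have hD0 : x ^ 2 * y' ^ 2 = x' ^ 2 * y ^ 2 := by
    have hdvd : (p : ℤ) ∣ (x * y' - x' * y) * (x * y' + x' * y) := by
      refine ⟨y' ^ 2 - y ^ 2, ?_⟩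
      linear_combination (-y' ^ 2) * h + y ^ 2 * h'
    rcases hprime.dvd_or_dvd hdvd with h1 | h1
    · have := key (x * y' - x' * y) (x * x' + 3 * y * y')
        (by linear_combination (p : ℤ) * h + (x ^ 2 + 3 * y ^ 2) * h') h1
      have e : x * y' = x' * y := by linarith
      calc x ^ 2 * y' ^ 2 = (x * y') ^ 2 := by ring
        _ = (x' * y) ^ 2 := by rw [e]
        _ = _ := by ring
    · have := key (x * y' + x' * y) (x * x' - 3 * y * y')
        (by linear_combination (p : ℤ) * h + (x ^ 2 + 3 * y ^ 2) * h') h1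
      have e : x * y' = -(x' * y) := by linarith
      calc x ^ 2 * y' ^ 2 = (x * y') ^ 2 := by ring
        _ = (-(x' * y)) ^ 2 := by rw [e]
        _ = _ := by ring
  have hM : y' ^ 2 = y ^ 2 := by
    have : (p : ℤ) * y' ^ 2 = (p : ℤ) * y ^ 2 := by
      linear_combination (y' ^ 2) * h + hD0 - y ^ 2 * h'
    exact mul_left_cancel₀ (by positivity) this
  exact sq_eq_sq_iff_eq_or_eq_neg.mp hM.symm

section

variable {p j : ℕ} [hp : Fact p.Prime]

/-- `(1+s)^n = 1+ns` modulo `p^2` -/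
theorem pow_small {s : ℚ} (hs : I p 1 s) (n : ℕ) : EQ p 2 ((1 + s) ^ n) (1 + n * s) := by
  induction n with
  | zero =>
    rw [pow_zero, Nat.cast_zero, zero_mul, add_zero]
    exact EQ.refl (one_mem _)
  | succ n ih =>
    have h1 := (ih.mul (EQ.refl (k := 2) (U_small hs).2.1)).trans
      (mul_small ((hs.mulL (nat_mem n))) hs)
    rw [← pow_succ] at h1
    have e : 1 + (n : ℚ) * s + s = 1 + ((n + 1 : ℕ) : ℚ) * s := by push_cast; ring
    rwa [e] at h1

end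

theorem I_a {p j : ℕ} [hp : Fact p.Prime] (hpj : p = 6 * j + 1) : I p 1 ((64 : ℚ) ^ j - 1) := by
  have hj : 0 < j := j_pos hpj
  have h1 : (p : ℤ) ∣ (64 : ℤ) ^ j - 1 := by
    have h2 : ((2 : ZMod p)) ≠ 0 := by
      intro h
      have h3 : ((2 : ℕ) : ZMod p) = 0 := by exact_mod_cast h
      rw [ZMod.natCast_eq_zero_iff] at h3
      have := Nat.le_of_dvd (by norm_num) h3
      omega
    have h3 := ZMod.pow_card_sub_one_eq_one h2
    rw [show p - 1 = 6 * j by omega, pow_mul] at h3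
    rw [← ZMod.intCast_zmod_eq_zero_iff_dvd]
    push_cast
    rw [show (64 : ZMod p) = 2 ^ 6 by norm_num, h3, sub_self]
  obtain ⟨c, hc⟩ := h1
  refine ⟨c, int_mem c, ?_⟩
  have : (((64 : ℤ) ^ j - 1 : ℤ) : ℚ) = ((p * c : ℤ) : ℚ) := by rw [hc]
  push_cast at this
  rw [this, pow_one]

theorem twF : StmtF := by
  intro p j hp hpj a ha
  have Ia : I p 1 a := by rw [ha]; exact I_a hpj
  have hV : (16 : ℚ) ^ j ≠ 0 := by positivity
  have e : (256 : ℚ) ^ (j * p) = (16 ^ j)⁻¹ * (1 + a) ^ (8 * j + 2) := by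
    rw [eq_inv_mul_iff_mul_eq₀ hV, ha, show (1 : ℚ) + (64 ^ j - 1) = 64 ^ j by ring,
      show (256 : ℚ) = 2 ^ 8 by norm_num, show (16 : ℚ) = 2 ^ 4 by norm_num,
      show (64 : ℚ) = 2 ^ 6 by norm_num, ← pow_mul, ← pow_mul, ← pow_mul, ← pow_mul, ← pow_add, hpj]
    congr 1
    ring
  have u2 : U p (2 : ℚ) := U2 hpj
  have u3 : U p (3 : ℚ) := U3 hpj
  have uV : U p ((16 : ℚ) ^ j) := by
    have : (16 : ℚ) = 2 ^ 4 := by norm_num
    rw [this]
    exact (u2.pow 4).pow j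
  have m23 : (2 / 3 : ℚ) ∈ Zp p := (u2.div u3).2.1
  have h1 := pow_small Ia (8 * j + 2)
  have h2 : EQ p 2 (1 + ((8 * j + 2 : ℕ) : ℚ) * a) (1 + 2 / 3 * a) := by
    refine ⟨add_mem (one_mem _) (mul_mem (nat_mem _) Ia.mem),
      add_mem (one_mem _) (mul_mem m23 Ia.mem), ?_⟩
    have e1 : 1 + ((8 * j + 2 : ℕ) : ℚ) * a - (1 + 2 / 3 * a) = (2 * (2 / 3)) * ((p : ℚ) * a) := by
      rw [hpj]
      push_cast
      ring
    rw [e1]
    exact (I_p.mul Ia).mulL (mul_mem u2.2.1 m23)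
  rw [e]
  exact (EQ.refl uV.2.2).mul (h1.trans h2)

end Pool.Agent.R488.Tw
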