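import Mathlib
import Pool.Agent.R488.Tw.Eval

set_option autoImplicit false

/-!
MP_d57286_nt: reduction to the hypergeometric sum.
-/

namespace Pool.Agent.R488.Tw

open Finset Pool.Agent.R439.PL Pool.Agent.R439.PL.S4 Pool.Agent.R488.Tri Pool.Agent.R488.Cub
  Pool.Agent.R488.Nin Pool.Agent.R488.Sq

variable {p j M : ℕ} [hp : Fact p.Prime]

theorem GT_red (hpM : p = 12 * M + 7) : EQ p 2 (∑ k ∈ range (3 * M + 1 + 1), (∏ i ∈ range k,
    (((i : ℚ) - (3 * M + 1 : ℕ)) * ((3 * M + 1 : ℕ) + 3 / 2 + i) / ((1 + i) * (1 + i)))) * (1 / 4) ^ k)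
    (GT p 0) := by
  have hpq : (p : ℚ) = 12 * M + 7 := by exact_mod_cast hpM
  have hpj : p = 6 * (2 * M + 1) + 1 := by omega
  have u3 := U3 hpj
  have u4 := U4 hpj
  have m34 : (3 / 4 : ℚ) ∈ Zp p := by rw [div_eq_mul_inv]; exact mul_mem u3.2.1 u4.2.2
  have m14 : (1 / 4 : ℚ) ∈ Zp p := by rw [one_div]; exact u4.2.2
  have e0 : ∑ k ∈ range (3 * M + 1 + 1), (∏ i ∈ range k,
      (((i : ℚ) - (3 * M + 1 : ℕ)) * ((3 * M + 1 : ℕ) + 3 / 2 + i) / ((1 + i) * (1 + i)))) * (1 / 4) ^ k =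
      ∑ k ∈ range p, (∏ i ∈ range k,
      (((i : ℚ) - (3 * M + 1 : ℕ)) * ((3 * M + 1 : ℕ) + 3 / 2 + i) / ((1 + i) * (1 + i)))) * (1 / 4) ^ k := by
    refine sum_subset (range_subset_range.2 (by omega)) fun k _ hk => ?_
    rw [prod_eq_zero (i := 3 * M + 1) (mem_range.2 (by have := mt mem_range.2 hk; omega)), zero_mul]
    rw [sub_self, zero_mul, zero_div]
  rw [e0, GT]
  refine EQ.sum fun k hk => ?_
  have hk' := mem_range.1 hk
  rw [gt, mul_comm]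
  refine (EQ.refl (pow_mem m14 _)).mul (EQ.prod fun i hi => ?_)
  have hi' := mem_range.1 hi
  have u1 := U_nat (p := p) (k := 1 + i) (by omega) (by omega)
  push_cast at u1
  have a1 : (3 / 4 + i : ℚ) ∈ Zp p := add_mem m34 (nat_mem i)
  have e1 : ((i : ℚ) - (3 * M + 1 : ℕ)) * ((3 * M + 1 : ℕ) + 3 / 2 + i) / ((1 + i) * (1 + i)) =
      ((3 / 4 + i) * (3 / 4 + i) - (p * (1 / 4)) * (p * (1 / 4))) * ((1 + (i : ℚ)) * (1 + i))⁻¹ := by
    rw [div_eq_mul_inv]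
    congr 1
    rw [hpq]; push_cast; ring
  have e2 : (3 / 4 + i - 3 * 0) * (3 / 4 + i + 0) * ((1 + (i : ℚ) - 2 * 0) * (1 + i))⁻¹ =
      (3 / 4 + i) * (3 / 4 + i) * ((1 + (i : ℚ)) * (1 + i))⁻¹ := by
    rw [mul_zero, mul_zero, sub_zero, sub_zero, add_zero]
  rw [e1, e2]
  have hI : I p 1 ((p : ℚ) * (1 / 4)) := (I_p (p := p)).mulR m14
  refine EQ.mul ⟨sub_mem (mul_mem a1 a1) (hI.mul hI).mem, mul_mem a1 a1, ?_⟩ (EQ.refl (u1.mul u1).2.2)
  have e3 : (3 / 4 + (i : ℚ)) * (3 / 4 + i) - (p * (1 / 4)) * (p * (1 / 4)) - (3 / 4 + i) * (3 / 4 + i) =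
      -((p * (1 / 4)) * (p * (1 / 4))) := by ring
  rw [e3]
  exact (hI.mul hI).neg

theorem red (hU : StmtU) (hB : StmtBin) (hpM : p = 12 * M + 7) :
    EQ p 2 (∑ k ∈ range p, (uu k : ℚ) / 64 ^ k * ((2 * k).choose k : ℚ) ^ 2) (-(1 / 2) * GT p 0) := by
  have hpj : p = 6 * (2 * M + 1) + 1 := by omega
  have u2 := U2 hpj
  have u4 := U4 hpj
  have m14 : (1 / 4 : ℚ) ∈ Zp p := by rw [one_div]; exact u4.2.2
  have m12 : (-(1 / 2) : ℚ) ∈ Zp p := by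
    rw [one_div]; exact neg_mem u2.2.2
  have h1 : EQ p 2 (∑ k ∈ range p, (uu k : ℚ) / 64 ^ k * ((2 * k).choose k : ℚ) ^ 2)
      (∑ k ∈ range p, (uu k : ℚ) * (((6 * M + 3).choose k : ℚ) * ((6 * M + 3 + k).choose k : ℚ) * (-1) ^ k) *
        (1 / 4) ^ k) := by
    refine EQ.sum fun k hk => ?_
    have hk' := mem_range.1 hk
    have h := ((EQ.refl (k := 2) (int_mem (p := p) (uu k))).mul (hB p (6 * M + 3) (by omega) k hk')).mul
      (EQ.refl (k := 2) (pow_mem m14 k))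
    have e : (uu k : ℚ) / 64 ^ k * ((2 * k).choose k : ℚ) ^ 2 =
        (uu k : ℚ) * (((2 * k).choose k : ℚ) ^ 2 * (1 / 16) ^ k) * (1 / 4) ^ k := by
      have : (1 / 16 : ℚ) ^ k * (1 / 4) ^ k = 1 / 64 ^ k := by
        rw [← mul_pow, ← one_div_pow]; norm_num
      rw [div_eq_mul_one_div, ← this]; ring
    rwa [e]
  refine h1.trans ?_
  have e2 : ∑ k ∈ range p, (uu k : ℚ) * (((6 * M + 3).choose k : ℚ) * ((6 * M + 3 + k).choose k : ℚ) * (-1) ^ k) *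
        (1 / 4) ^ k = ∑ k ∈ range (2 * (3 * M + 1) + 2), (uu k : ℚ) * ((2 * (3 * M + 1) + 1).choose k : ℚ) *
        ((2 * (3 * M + 1) + 1 + k).choose k : ℚ) * (-(1 / 4)) ^ k := by
    rw [show 2 * (3 * M + 1) + 1 = 6 * M + 3 by ring]
    symm
    have e3 : ∀ k ∈ range (2 * (3 * M + 1) + 2), (uu k : ℚ) * ((6 * M + 3).choose k : ℚ) *
        ((6 * M + 3 + k).choose k : ℚ) * (-(1 / 4)) ^ k = (uu k : ℚ) * (((6 * M + 3).choose k : ℚ) *
        ((6 * M + 3 + k).choose k : ℚ) * (-1) ^ k) * (1 / 4) ^ k := by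
      intro k _
      have : (-(1 / 4) : ℚ) ^ k = (-1) ^ k * (1 / 4) ^ k := by rw [← mul_pow]; norm_num
      rw [this]; ring
    rw [sum_congr rfl e3]
    refine sum_subset (range_subset_range.2 (by omega)) fun k _ hk => ?_
    rw [Nat.choose_eq_zero_of_lt (show 6 * M + 3 < k by have := mt mem_range.2 hk; omega)]
    simp
  rw [e2, hU (3 * M + 1)]
  exact (EQ.refl m12).mul (GT_red hpM)

end Pool.Agent.R488.Tw
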