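import Pool.Agent.R488.Tw.Defs

set_option autoImplicit false

/-!
TW-S: the sign of `y` modulo 4.
-/

namespace Pool.Agent.R488.Tw

namespace S

open NumberTheorySymbols

theorem gcd_one {p : ℕ} (hp : p.Prime) {A y : ℤ} (h : (p : ℤ) = A ^ 2 + 3 * y ^ 2) :
    Int.gcd A y = 1 := by
  have h1 : ((Int.gcd A y : ℕ) : ℤ) ∣ A := Int.gcd_dvd_left _ _
  have h2 : ((Int.gcd A y : ℕ) : ℤ) ∣ y := Int.gcd_dvd_right _ _
  have h3 : ((Int.gcd A y : ℕ) : ℤ) * ((Int.gcd A y : ℕ) : ℤ) ∣ (p : ℤ) := by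
    rw [h, pow_two, pow_two]
    exact dvd_add (mul_dvd_mul h1 h1) (Dvd.dvd.mul_left (mul_dvd_mul h2 h2) 3)
  have h4 : Int.gcd A y * Int.gcd A y ∣ p := by exact_mod_cast h3
  have h5 := hp.prime.squarefree (Int.gcd A y) h4
  exact Nat.isUnit_iff.mp h5

theorem neg_one {p : ℕ} (h : p % 4 = 3) (a : ℤ) : J(-a | p) = - J(a | p) := by
  have hodd : Odd p := by rw [Nat.odd_iff]; omega
  rw [jacobiSym.neg a hodd, ZMod.χ₄_nat_three_mod_four h]
  ring

/-- the symbol of `y` -/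
theorem sym_y {p : ℕ} (hp : p.Prime) (h4 : p % 4 = 3) {A y : ℤ}
    (h : (p : ℤ) = A ^ 2 + 3 * y ^ 2) (hy : y % 4 = 3) : J(y | p) = -1 := by
  have hg := gcd_one hp h
  have hJ : J((p : ℤ) | y.natAbs) = 1 := by
    have e : (p : ℤ) % (y.natAbs : ℤ) = (A ^ 2) % (y.natAbs : ℤ) := by
      rw [h]
      have : (y.natAbs : ℤ) ∣ 3 * y ^ 2 := by
        rw [Int.natAbs_dvd]
        exact Dvd.dvd.mul_left (dvd_pow_self y (by norm_num)) 3
      obtain ⟨c, hc⟩ := this
      rw [hc]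
      exact Int.add_mul_emod_self_left _ _ _
    rw [jacobiSym.mod_left' e]
    apply jacobiSym.sq_one'
    show Nat.gcd A.natAbs ((y.natAbs : ℤ).natAbs) = 1
    rw [Int.natAbs_natCast]
    exact hg
  rcases Int.natAbs_eq y with hs | hs
  · -- y > 0
    have hm : y.natAbs % 4 = 3 := by omega
    rw [hs, jacobiSym.quadratic_reciprocity_three_mod_four hm h4, hJ]
  · have hm : y.natAbs % 4 = 1 := by omega
    have hodd : Odd p := by rw [Nat.odd_iff]; omega
    rw [hs, neg_one h4, jacobiSym.quadratic_reciprocity_one_mod_four hm hodd, hJ]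

/-- the symbol of the odd part of `A` -/
theorem sym_odd {p : ℕ} (hp : p.Prime) (h4 : p % 4 = 3) {A y : ℤ}
    (h : (p : ℤ) = A ^ 2 + 3 * y ^ 2) {e a0 : ℕ} (ho : Odd a0) (hA : A.natAbs = 2 ^ e * a0) :
    J((a0 : ℤ) | p) = J((a0 : ℤ) | 3) := by
  have hg := gcd_one hp h
  have hdvd : (a0 : ℤ) ∣ A := by
    rw [← Int.dvd_natAbs, hA]
    push_cast
    exact Dvd.intro_left _ rfl
  have hg0 : Int.gcd y a0 = 1 := by
    have : Int.gcd y a0 ∣ Int.gcd A y := by
      apply Int.dvd_gcd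
      · exact (Int.gcd_dvd_right y a0).trans hdvd
      · exact Int.gcd_dvd_left y a0
    rw [hg] at this
    exact Nat.dvd_one.mp this
  have hJ : J((p : ℤ) | a0) = J(((3 : ℕ) : ℤ) | a0) := by
    have e : (p : ℤ) % (a0 : ℤ) = (3 * y ^ 2) % (a0 : ℤ) := by
      rw [h]
      obtain ⟨c, hc⟩ := hdvd.trans (dvd_pow_self A (show 2 ≠ 0 by norm_num))
      rw [hc]
      simp
    rw [jacobiSym.mod_left' e, jacobiSym.mul_left, jacobiSym.sq_one' hg0, mul_one]
    rfl
  have hodd : Odd p := by rw [Nat.odd_iff]; omega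
  have h43 : (3 : ℕ) % 4 = 3 := by norm_num
  have hm : a0 % 4 = 1 ∨ a0 % 4 = 3 := by
    have := Nat.odd_iff.mp ho
    omega
  rcases hm with hm | hm
  · rw [jacobiSym.quadratic_reciprocity_one_mod_four hm hodd, hJ,
      ← jacobiSym.quadratic_reciprocity_one_mod_four hm (by decide)]
    
  · rw [jacobiSym.quadratic_reciprocity_three_mod_four hm h4, hJ,
      jacobiSym.quadratic_reciprocity_three_mod_four h43 hm, neg_neg]
    

/-- the symbol of `A` -/
theorem sym_A {p M : ℕ} (hp : p.Prime) (hpM : p = 12 * M + 7) {A y : ℤ}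
    (h : (p : ℤ) = A ^ 2 + 3 * y ^ 2) (hA3 : A % 3 = 2) : J(A | p) = (-1) ^ M := by
  have h4 : p % 4 = 3 := by omega
  have hodd : Odd p := by rw [Nat.odd_iff]; omega
  have hA0 : A.natAbs ≠ 0 := by
    intro h0
    rw [Int.natAbs_eq_zero] at h0
    rw [h0] at hA3
    norm_num at hA3
  obtain ⟨e, a0, ho, hAe⟩ := Nat.exists_eq_two_pow_mul_odd hA0
  have hs := sym_odd hp h4 h ho hAe
  -- parity facts
  have hpar : (∃ a : ℤ, A = 2 * a) ∧ ∃ b : ℤ, y = 2 * b + 1 := by
    have hpz : (p : ℤ) = 12 * M + 7 := by rw [hpM]; push_cast; ring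
    rcases Int.even_or_odd' A with ⟨a, ha | ha⟩ <;> rcases Int.even_or_odd' y with ⟨b, hb | hb⟩
    · exfalso
      have : (p : ℤ) = 4 * (a ^ 2 + 3 * b ^ 2) := by rw [h, ha, hb]; ring
      omega
    · exact ⟨⟨a, ha⟩, ⟨b, hb⟩⟩
    · exfalso
      have : (p : ℤ) = 4 * (a ^ 2 + a + 3 * b ^ 2) + 1 := by rw [h, ha, hb]; ring
      omega
    · exfalso
      have : (p : ℤ) = 4 * (a ^ 2 + a + 3 * b ^ 2 + 3 * b + 1) := by rw [h, ha, hb]; ring
      omega
  obtain ⟨⟨a, ha⟩, ⟨b, hb⟩⟩ := hpar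
  -- symbols modulo 3
  have h3 : J(A | 3) = -1 := by
    have : A % ((3 : ℕ) : ℤ) = 2 % ((3 : ℕ) : ℤ) := by
      rw [show ((3 : ℕ) : ℤ) = 3 by norm_num, hA3]; rfl
    rw [jacobiSym.mod_left' this]
    norm_num
  have h23 : J(2 | 3) = -1 := by norm_num
  have hn3 : ∀ x : ℤ, J(-x | 3) = - J(x | 3) := fun x => neg_one (by norm_num) x
  have hmul : J((A.natAbs : ℤ) | 3) = (-1) ^ e * J((a0 : ℤ) | 3) := by
    rw [hAe]
    push_cast
    rw [jacobiSym.mul_left, jacobiSym.pow_left, h23]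
  have hmulp : J((A.natAbs : ℤ) | p) = J(2 | p) ^ e * J((a0 : ℤ) | 3) := by
    rw [hAe]
    push_cast
    rw [jacobiSym.mul_left, jacobiSym.pow_left, hs]
  have hkey : J(A | p) = -(-J(2 | p)) ^ e := by
    have e1 : ((-1 : ℤ) ^ e) * ((-1) ^ e) = 1 := by rw [← mul_pow]; norm_num
    rcases Int.natAbs_eq A with hsA | hsA
    · rw [hsA] at h3 ⊢
      rw [hmul] at h3
      rw [hmulp, neg_pow]
      linear_combination (J(2 | p) ^ e * (-1) ^ e) * h3 - (J(2 | p) ^ e * J((a0 : ℤ) | 3)) * e1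
    · rw [hsA] at h3 ⊢
      rw [hn3, hmul] at h3
      rw [neg_one h4, hmulp, neg_pow]
      linear_combination (J(2 | p) ^ e * (-1) ^ e) * h3 + (J(2 | p) ^ e * J((a0 : ℤ) | 3)) * e1
  rw [hkey, jacobiSym.at_two hodd, ZMod.χ₈_nat_eq_if_mod_eight]
  rcases Nat.even_or_odd M with hM | hM
  · -- p = 7 mod 8, e = 1
    obtain ⟨c, hc⟩ := hM
    have h8 : p % 8 = 7 := by omega
    have he : e = 1 := by
      have hpz : (p : ℤ) = 24 * c + 7 := by rw [hpM, hc]; push_cast; ring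
      have h5 : (p : ℤ) = 4 * a ^ 2 + 12 * (b * (b + 1)) + 3 := by rw [h, ha, hb]; ring
      have h6 : Even (b * (b + 1)) := Int.even_mul_succ_self b
      obtain ⟨w, hw⟩ := h6
      rw [hw] at h5
      have h7 : a ^ 2 % 2 = 1 := by omega
      have h8' : ¬ (4 : ℤ) ∣ A := by
        rintro ⟨t, ht⟩
        have : a = 2 * t := by omega
        rw [this] at h7
        have : (2 * t) ^ 2 = 2 * (2 * t ^ 2) := by ring
        omega
      have h9 : ¬ 4 ∣ A.natAbs := by
        intro h10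
        apply h8'
        have : ((4 : ℕ) : ℤ) ∣ A := Int.natCast_dvd.mpr h10
        exact_mod_cast this
      have h10 : 2 ∣ A.natAbs := by
        apply Int.natCast_dvd.mp
        exact ⟨a, by rw [ha]; norm_num⟩
      rcases Nat.lt_or_ge e 2 with he2 | he2
      · rcases Nat.eq_zero_or_pos e with he0 | he0
        · exfalso
          rw [hAe, he0, pow_zero, one_mul] at h10
          have := Nat.odd_iff.mp ho
          omega
        · omega
      · exfalso
        apply h9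
        rw [hAe]
        exact (pow_dvd_pow 2 he2).mul_right a0
    rw [he, hc, ← two_mul, pow_mul]
    rw [if_neg (by omega), if_pos (by omega)]
    norm_num
  · obtain ⟨c, hc⟩ := hM
    have h8 : p % 8 = 3 := by omega
    rw [if_neg (by omega), if_neg (by omega), neg_neg, one_pow, hc, pow_succ, pow_mul]
    norm_num

end S

open S NumberTheorySymbols in
theorem twS : StmtSgn := by
  intro p M hp hpM A y h hA3 hd
  have h4 : p % 4 = 3 := by omega
  have hA := sym_A hp hpM h hA3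
  have hcop3 : J(3 | p) = -1 := by
    have e1 : J(((3 : ℕ) : ℤ) | p) = - J((p : ℤ) | 3) :=
      jacobiSym.quadratic_reciprocity_three_mod_four (by norm_num) h4
    have e2 : J((p : ℤ) | 3) = 1 := by
      have : (p : ℤ) % ((3 : ℕ) : ℤ) = 1 % ((3 : ℕ) : ℤ) := by
        rw [hpM]; push_cast; omega
      rw [jacobiSym.mod_left' this]
      norm_num
    rw [e2] at e1
    exact_mod_cast e1
  have hAy : J(A | p) = J(y | p) * (-1) ^ M := by
    have e1 : A % (p : ℤ) = (y * 9 * 27 ^ M) % (p : ℤ) :=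
      (Int.emod_emod_of_dvd _ (dvd_refl _)).symm.trans
        ((Int.emod_emod_of_dvd _ (dvd_refl _)).trans (Int.ModEq.symm
          ((Int.modEq_iff_dvd).mpr hd)))
    rw [jacobiSym.mod_left' e1, jacobiSym.mul_left, jacobiSym.mul_left, jacobiSym.pow_left]
    have e9 : J(9 | p) = 1 := by
      rw [show (9 : ℤ) = 3 * 3 by norm_num, jacobiSym.mul_left, hcop3]; norm_num
    have e27 : J(27 | p) = -1 := by
      rw [show (27 : ℤ) = 3 * 3 * 3 by norm_num, jacobiSym.mul_left, jacobiSym.mul_left, hcop3]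
      norm_num
    rw [e9, e27, mul_one]
  have hy1 : J(y | p) = 1 := by
    rw [hA] at hAy
    have e1 : ((-1 : ℤ) ^ M) * ((-1) ^ M) = 1 := by rw [← mul_pow]; norm_num
    linear_combination (-(-1) ^ M) * hAy + (1 - J(y | p)) * e1
  have hodd : y % 4 = 1 ∨ y % 4 = 3 := by
    have hpz : (p : ℤ) = 12 * M + 7 := by rw [hpM]; push_cast; ring
    rcases Int.even_or_odd' y with ⟨b, hb | hb⟩
    · exfalso
      rcases Int.even_or_odd' A with ⟨a, ha | ha⟩
      · have : (p : ℤ) = 4 * (a ^ 2 + 3 * b ^ 2) := by rw [h, ha, hb]; ring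
        omega
      · have : (p : ℤ) = 4 * (a ^ 2 + a + 3 * b ^ 2) + 1 := by rw [h, ha, hb]; ring
        omega
    · omega
  rcases hodd with h1 | h1
  · exact h1
  · exfalso
    rw [sym_y hp h4 h h1] at hy1
    norm_num at hy1

end Pool.Agent.R488.Tw
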