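import Mathlib
import Pool.Agent.R488.Tw.Defs

set_option autoImplicit false

/-! TW-U: quadratic transformation of Legendre polynomials at a real point and the Lucas weighted
sum at `(2 ± √3)/4` -/

namespace Pool.Agent.R488.Tw.UT

open Finset

/-- the Legendre polynomial at `1 - 2z` -/
noncomputable def PL (z : ℝ) (n : ℕ) : ℝ := ∑ k ∈ range (n + 1),
  (n.choose k : ℝ) * ((n + k).choose k : ℝ) * (-z) ^ k

/-- coefficients of the Legendre polynomials -/
noncomputable def cc (n k : ℕ) : ℝ := ∏ i ∈ range k, (((n : ℝ) - i) * (n + 1 + i) / ((1 + i) * (1 + i)))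

theorem cc_choose (n k : ℕ) : cc n k = (n.choose k : ℝ) * ((n + k).choose k : ℝ) := by
  induction k with
  | zero => simp [cc]
  | succ k ih =>
    have h1 : ((n.choose (k + 1) : ℕ) : ℝ) * (k + 1) = n.choose k * ((n : ℝ) - k) := by
      by_cases hk : k ≤ n
      · have := Nat.choose_succ_right_eq n k
        have h2 : ((n.choose (k + 1) * (k + 1) : ℕ) : ℝ) = ((n.choose k * (n - k) : ℕ) : ℝ) := by rw [this]
        push_cast [Nat.cast_sub hk] at h2
        exact h2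
      · push Not at hk
        rw [Nat.choose_eq_zero_of_lt hk, Nat.choose_eq_zero_of_lt (by omega)]
        simp
    have h2 : (((n + (k + 1)).choose (k + 1) : ℕ) : ℝ) * (k + 1) = ((n + k).choose k : ℝ) * (n + k + 1) := by
      have := Nat.add_one_mul_choose_eq (n + k) k
      have h3 : (((n + k + 1) * (n + k).choose k : ℕ) : ℝ) = (((n + k + 1).choose (k + 1) * (k + 1) : ℕ) : ℝ) := by
        rw [this]
      push_cast at h3
      rw [show n + (k + 1) = n + k + 1 by ring]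
      linear_combination -h3
    have a1 : (k : ℝ) + 1 ≠ 0 := by positivity
    have a2 : (1 : ℝ) + k ≠ 0 := by positivity
    rw [cc, prod_range_succ, ← cc, ih]
    apply mul_left_cancel₀ (mul_ne_zero a1 a1)
    have e : ((k : ℝ) + 1) * (k + 1) * ((n.choose (k + 1) : ℝ) * ((n + (k + 1)).choose (k + 1) : ℝ)) =
        ((n.choose (k + 1) : ℕ) : ℝ) * (k + 1) * ((((n + (k + 1)).choose (k + 1) : ℕ) : ℝ) * (k + 1)) := by ring
    rw [e, h1, h2]
    field_simp
    ring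

theorem cc_zero {n k : ℕ} (h : n < k) : cc n k = 0 := by
  rw [cc_choose, Nat.choose_eq_zero_of_lt h]; simp

theorem PL_ext (z : ℝ) (n N : ℕ) (h : n < N) : PL z n = ∑ k ∈ range N, cc n k * (-z) ^ k := by
  unfold PL
  have h1 : ∀ k, ((n.choose k : ℝ) * ((n + k).choose k : ℝ)) * (-z) ^ k = cc n k * (-z) ^ k := fun k => by
    rw [cc_choose]
  simp only [h1]
  refine sum_subset (range_subset_range.2 h) ?_
  intro k _ hk
  rw [mem_range, not_lt] at hk
  rw [cc_zero (by omega), zero_mul]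

theorem cc_succ (n k : ℕ) : cc n (k + 1) = cc n k * (((n : ℝ) - k) * (n + 1 + k) / ((1 + k) * (1 + k))) := by
  rw [cc, prod_range_succ, ← cc]

/-- relation between `cc (n+1)` and `cc n` -/
theorem cc_up (n k : ℕ) : ((n : ℝ) + 1 - k) * cc (n + 1) k = (n + 1 + k) * cc n k := by
  induction k with
  | zero => simp [cc]
  | succ k ih =>
    rw [cc_succ, cc_succ]
    have a2 : (1 : ℝ) + k ≠ 0 := by positivity
    push_cast
    have e : ((n : ℝ) + 1 - (k + 1)) * (cc (n + 1) k * ((n + 1 - k) * (n + 1 + 1 + k) / ((1 + k) * (1 + k)))) =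
        ((n : ℝ) - k) * (n + 2 + k) / ((1 + k) * (1 + k)) * (((n : ℝ) + 1 - k) * cc (n + 1) k) := by
      field_simp
      ring
    rw [e, ih]
    field_simp
    ring

/-- the termwise form of the three term recurrence -/
theorem cc_rec (n k : ℕ) : ((n : ℝ) + 2) * cc (n + 2) (k + 1) -
    (2 * n + 3) * (cc (n + 1) (k + 1) + 2 * cc (n + 1) k) + (n + 1) * cc n (k + 1) = 0 := by
  have a2 : (1 : ℝ) + k ≠ 0 := by positivity
  rw [cc_succ, cc_succ, cc_succ]
  have h1 := cc_up n k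
  have h2 := cc_up (n + 1) k
  push_cast at h2 ⊢
  -- express through cc (n+1) k
  have e1 : (n + 2 : ℝ) * (cc (n + 2) k * ((n + 2 - k) * (n + 2 + 1 + k) / ((1 + k) * (1 + k)))) =
      (n + 2) * (n + 3 + k) / ((1 + k) * (1 + k)) * ((n + 2 + k) * cc (n + 1) k) := by
    have : ((n : ℝ) + 2 - k) * cc (n + 2) k = (n + 2 + k) * cc (n + 1) k := by
      have h3 : ((n : ℝ) + 1 + 1 - k) * cc (n + 1 + 1) k = (n + 1 + 1 + k) * cc (n + 1) k := h2
      have e : cc (n + 1 + 1) k = cc (n + 2) k := rfl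
      rw [e] at h3
      linear_combination h3
    rw [← this]
    field_simp
    ring
  have e2 : (n + 1 : ℝ) * (cc n k * ((n - k) * (n + 1 + k) / ((1 + k) * (1 + k)))) =
      (n + 1) * (n - k) / ((1 + k) * (1 + k)) * (((n : ℝ) + 1 - k) * cc (n + 1) k) := by
    rw [h1]
    field_simp
  rw [e1, e2]
  field_simp
  ring

theorem PL_rec (z : ℝ) (n : ℕ) : ((n : ℝ) + 2) * PL z (n + 2) = (2 * n + 3) * (1 - 2 * z) * PL z (n + 1) - (n + 1) * PL z n := by
  rw [PL_ext z (n + 2) (n + 4) (by omega), PL_ext z (n + 1) (n + 3) (by omega), PL_ext z n (n + 4) (by omega)]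
  have hx : ∑ k ∈ range (n + 3), cc (n + 1) k * (-z) ^ k =
      ∑ k ∈ range (n + 4), cc (n + 1) k * (-z) ^ k := by
    rw [sum_range_succ _ (n + 3), cc_zero (show n + 1 < n + 3 by omega)]; ring
  have h0 : ∀ m : ℕ, ∑ k ∈ range (n + 4), cc m k * (-z) ^ k =
      (∑ k ∈ range (n + 3), cc m (k + 1) * (-z) ^ (k + 1)) + 1 := by
    intro m
    rw [sum_range_succ']
    simp [cc]
  -- split -5/4 = 1 + 2 * (-9/8)
  have e1 : (2 * (n : ℝ) + 3) * (1 - 2 * z) * ∑ k ∈ range (n + 3), cc (n + 1) k * (-z) ^ k =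
      (2 * n + 3) * ((∑ k ∈ range (n + 4), cc (n + 1) k * (-z) ^ k) +
        ∑ k ∈ range (n + 3), 2 * cc (n + 1) k * (-z) ^ (k + 1)) := by
    rw [← hx, ← sum_add_distrib, mul_assoc, mul_sum]
    congr 1
    refine sum_congr rfl fun k _ => ?_
    rw [pow_succ]; ring
  rw [e1, h0 (n + 2), h0 (n + 1), h0 n]
  have e2 : ∑ k ∈ range (n + 3), (((n : ℝ) + 2) * cc (n + 2) (k + 1) -
    (2 * n + 3) * (cc (n + 1) (k + 1) + 2 * cc (n + 1) k) + (n + 1) * cc n (k + 1)) * (-z) ^ (k + 1) = 0 := by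
    refine sum_eq_zero fun k _ => ?_
    rw [cc_rec, zero_mul]
  have e3 : ∑ k ∈ range (n + 3), (((n : ℝ) + 2) * cc (n + 2) (k + 1) -
    (2 * n + 3) * (cc (n + 1) (k + 1) + 2 * cc (n + 1) k) + (n + 1) * cc n (k + 1)) * (-z) ^ (k + 1) =
      ((n : ℝ) + 2) * (∑ k ∈ range (n + 3), cc (n + 2) (k + 1) * (-z) ^ (k + 1)) -
      (2 * n + 3) * ((∑ k ∈ range (n + 3), cc (n + 1) (k + 1) * (-z) ^ (k + 1)) +
        ∑ k ∈ range (n + 3), 2 * cc (n + 1) k * (-z) ^ (k + 1)) +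
      (n + 1) * ∑ k ∈ range (n + 3), cc n (k + 1) * (-z) ^ (k + 1) := by
    rw [← sum_add_distrib, mul_sum, mul_sum, mul_sum, ← sum_sub_distrib, ← sum_add_distrib]
    refine sum_congr rfl fun k _ => ?_
    ring
  rw [e3] at e2
  linear_combination e2

/-- terms of the transformed sums -/
noncomputable def qt (a : ℝ) (m k : ℕ) : ℝ := ∏ i ∈ range k, ((-(m : ℝ) + i) * ((m + a) + i) / ((1 + i) * (1 + i)))

theorem qt_succ (a : ℝ) (m k : ℕ) : qt a m (k + 1) = qt a m k * ((-(m : ℝ) + k) * ((m + a) + k) / ((1 + k) * (1 + k))) := by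
  rw [qt, prod_range_succ, ← qt]

theorem qt_zero (a : ℝ) {m k : ℕ} (h : m < k) : qt a m k = 0 := by
  unfold qt
  refine prod_eq_zero (mem_range.2 h) ?_
  simp

/-- sums -/
noncomputable def QS (z a : ℝ) (m : ℕ) : ℝ := ∑ k ∈ range (m + 1), qt a m k * (4 * z * (1 - z)) ^ k

theorem QS_ext (z a : ℝ) (m N : ℕ) (h : m < N) : QS z a m = ∑ k ∈ range N, qt a m k * (4 * z * (1 - z)) ^ k := by
  unfold QS
  refine sum_subset (range_subset_range.2 h) ?_
  intro k _ hk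
  rw [mem_range, not_lt] at hk
  rw [qt_zero a (by omega), zero_mul]

/-- `(m+1/2) o_m(k) = (m+1/2+k) e_m(k)` -/
theorem eo (m k : ℕ) : ((m : ℝ) + 1 / 2) * qt (3 / 2) m k = (m + 1 / 2 + k) * qt (1 / 2) m k := by
  induction k with
  | zero => simp [qt]
  | succ k ih =>
    rw [qt_succ, qt_succ]
    have a2 : (1 : ℝ) + k ≠ 0 := by positivity
    have e : ((m : ℝ) + 1 / 2) * (qt (3 / 2) m k * ((-(m : ℝ) + k) * ((m + 3 / 2) + k) / ((1 + k) * (1 + k)))) =
      ((-(m : ℝ) + k) * ((m + 3 / 2) + k) / ((1 + k) * (1 + k))) * (((m : ℝ) + 1 / 2) * qt (3 / 2) m k) := by ring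
    rw [e, ih]
    push_cast
    field_simp
    ring

/-- `(m+1) o_m(k) = (m+1-k) e_{m+1}(k)` -/
theorem eo2 (m k : ℕ) : ((m : ℝ) + 1) * qt (3 / 2) m k = (m + 1 - k) * qt (1 / 2) (m + 1) k := by
  induction k with
  | zero => simp [qt]
  | succ k ih =>
    rw [qt_succ, qt_succ]
    have a2 : (1 : ℝ) + k ≠ 0 := by positivity
    have e : ((m : ℝ) + 1) * (qt (3 / 2) m k * ((-(m : ℝ) + k) * ((m + 3 / 2) + k) / ((1 + k) * (1 + k)))) =
      ((-(m : ℝ) + k) * ((m + 3 / 2) + k) / ((1 + k) * (1 + k))) * (((m : ℝ) + 1) * qt (3 / 2) m k) := by ring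
    rw [e, ih]
    push_cast
    field_simp
    ring

theorem qt0 (a : ℝ) (m : ℕ) : qt a m 0 = 1 := by simp [qt]

/-- (B) -/
theorem stepB (z : ℝ) (m : ℕ) : (2 * (m : ℝ) + 3) * QS z (3 / 2) (m + 1) =
    (4 * m + 5) * QS z (1 / 2) (m + 1) - (2 * m + 2) * QS z (3 / 2) m := by
  rw [QS_ext z (3 / 2) (m + 1) (m + 2) (by omega), QS_ext z (1 / 2) (m + 1) (m + 2) (by omega),
    QS_ext z (3 / 2) m (m + 2) (by omega), mul_sum, mul_sum, mul_sum, ← sum_sub_distrib]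
  refine sum_congr rfl fun k _ => ?_
  have h1 := eo (m + 1) k
  have h2 := eo2 m k
  push_cast at h1
  linear_combination (2 * (4 * z * (1 - z)) ^ k) * h1 + (2 * (4 * z * (1 - z)) ^ k) * h2

theorem stepC_term (m k : ℕ) : (2 * (m : ℝ) + 2) * qt (1 / 2) (m + 1) (k + 1) =
    (4 * m + 3) * (qt (3 / 2) m (k + 1) - qt (3 / 2) m k) - (2 * m + 1) * qt (1 / 2) m (k + 1) := by
  have h1 := eo m k
  have h2 := eo2 m k
  have a2 : (1 : ℝ) + k ≠ 0 := by positivity
  rw [qt_succ, qt_succ, qt_succ]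
  have e1 : (2 * (m : ℝ) + 2) * (qt (1 / 2) (m + 1) k * ((-((m + 1 : ℕ) : ℝ) + k) * (((m + 1 : ℕ) : ℝ) + 1 / 2 + k) /
      ((1 + k) * (1 + k)))) = -((2 * m + 2) * (m + 3 / 2 + k) / ((1 + k) * (1 + k))) *
        (((m : ℝ) + 1 - k) * qt (1 / 2) (m + 1) k) := by
    push_cast
    field_simp
    ring
  have e2 : (2 * (m : ℝ) + 1) * (qt (1 / 2) m k * ((-(m : ℝ) + k) * (m + 1 / 2 + k) / ((1 + k) * (1 + k)))) =
      ((2 * m + 1) * (-(m : ℝ) + k) / ((1 + k) * (1 + k))) * ((m + 1 / 2 + k) * qt (1 / 2) m k) := by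
    field_simp
  rw [e1, e2, ← h1, ← h2]
  field_simp
  ring

/-- (C) -/
theorem stepC (z : ℝ) (m : ℕ) : (2 * (m : ℝ) + 2) * QS z (1 / 2) (m + 1) =
    (4 * m + 3) * (1 - 4 * z * (1 - z)) * QS z (3 / 2) m - (2 * m + 1) * QS z (1 / 2) m := by
  have hO : QS z (3 / 2) m = ∑ k ∈ range (m + 2), qt (3 / 2) m k * (4 * z * (1 - z)) ^ k := QS_ext _ _ _ _ (by omega)
  have hO' : QS z (3 / 2) m = ∑ k ∈ range (m + 1), qt (3 / 2) m k * (4 * z * (1 - z)) ^ k := rfl
  have h0 : ∀ (a : ℝ) (n : ℕ), ∑ k ∈ range (m + 2), qt a n k * (4 * z * (1 - z)) ^ k =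
      (∑ k ∈ range (m + 1), qt a n (k + 1) * (4 * z * (1 - z)) ^ (k + 1)) + 1 := by
    intro a n
    rw [sum_range_succ', qt0]
    simp
  have e1 : (1 - 4 * z * (1 - z)) * QS z (3 / 2) m = QS z (3 / 2) m -
      ∑ k ∈ range (m + 1), qt (3 / 2) m k * (4 * z * (1 - z)) ^ (k + 1) := by
    have : ∑ k ∈ range (m + 1), qt (3 / 2) m k * (4 * z * (1 - z)) ^ (k + 1) = 4 * z * (1 - z) * QS z (3 / 2) m := by
      rw [hO', mul_sum]
      refine sum_congr rfl fun k _ => ?_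
      rw [pow_succ]; ring
    rw [this]; ring
  rw [mul_assoc (4 * (m : ℝ) + 3), e1]
  conv_rhs => rw [hO, h0]
  rw [QS_ext z (1 / 2) (m + 1) (m + 2) (by omega), QS_ext z (1 / 2) m (m + 2) (by omega), h0, h0]
  have e2 : ∑ k ∈ range (m + 1), ((2 * (m : ℝ) + 2) * qt (1 / 2) (m + 1) (k + 1) -
      ((4 * m + 3) * (qt (3 / 2) m (k + 1) - qt (3 / 2) m k) - (2 * m + 1) * qt (1 / 2) m (k + 1))) *
        (4 * z * (1 - z)) ^ (k + 1) = 0 := by
    refine sum_eq_zero fun k _ => ?_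
    rw [stepC_term, sub_self, zero_mul]
  have e3 : ∑ k ∈ range (m + 1), ((2 * (m : ℝ) + 2) * qt (1 / 2) (m + 1) (k + 1) -
      ((4 * m + 3) * (qt (3 / 2) m (k + 1) - qt (3 / 2) m k) - (2 * m + 1) * qt (1 / 2) m (k + 1))) *
        (4 * z * (1 - z)) ^ (k + 1) =
      (2 * (m : ℝ) + 2) * (∑ k ∈ range (m + 1), qt (1 / 2) (m + 1) (k + 1) * (4 * z * (1 - z)) ^ (k + 1)) -
      ((4 * m + 3) * ((∑ k ∈ range (m + 1), qt (3 / 2) m (k + 1) * (4 * z * (1 - z)) ^ (k + 1)) -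
        ∑ k ∈ range (m + 1), qt (3 / 2) m k * (4 * z * (1 - z)) ^ (k + 1)) -
      (2 * m + 1) * ∑ k ∈ range (m + 1), qt (1 / 2) m (k + 1) * (4 * z * (1 - z)) ^ (k + 1)) := by
    rw [← sum_sub_distrib, mul_sum, mul_sum, mul_sum, ← sum_sub_distrib, ← sum_sub_distrib]
    refine sum_congr rfl fun k _ => ?_
    ring
  rw [e3] at e2
  linear_combination e2

theorem PL_QS (z : ℝ) : ∀ m : ℕ, PL z (2 * m) = QS z (1 / 2) m ∧ PL z (2 * m + 1) = (1 - 2 * z) * QS z (3 / 2) m := by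
  intro m
  induction m with
  | zero =>
    refine ⟨by simp [PL, QS, qt], ?_⟩
    simp [PL, QS, qt, sum_range_succ]
    ring
  | succ m ih =>
    obtain ⟨i1, i2⟩ := ih
    have r1 := PL_rec z (2 * m)
    have r2 := PL_rec z (2 * m + 1)
    rw [show 2 * m + 1 + 2 = 2 * (m + 1) + 1 by ring, show 2 * m + 1 + 1 = 2 * (m + 1) by ring] at r2
    rw [show 2 * m + 2 = 2 * (m + 1) by ring] at r1
    push_cast at r1 r2
    have hE : PL z (2 * (m + 1)) = QS z (1 / 2) (m + 1) := by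
      have a1 : (2 * (m : ℝ) + 2) ≠ 0 := by positivity
      apply mul_left_cancel₀ a1
      rw [r1, i1, i2, stepC z]
      ring
    refine ⟨hE, ?_⟩
    have a1 : (2 * (m : ℝ) + 3) ≠ 0 := by positivity
    apply mul_left_cancel₀ a1
    rw [hE, i2] at r2
    have := stepB z m
    linear_combination r2 - (1 - 2 * z) * this


theorem uu_real (s : ℝ) (hs : s * s = 3) : ∀ k : ℕ, (uu k : ℝ) * (2 * s) = (2 + s) ^ k - (2 - s) ^ k ∧
    (uu (k + 1) : ℝ) * (2 * s) = (2 + s) ^ (k + 1) - (2 - s) ^ (k + 1) := by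
  intro k
  induction k with
  | zero =>
    refine ⟨by simp [uu], ?_⟩
    simp [uu]; ring
  | succ k ih =>
    obtain ⟨h1, h2⟩ := ih
    refine ⟨h2, ?_⟩
    have e : (uu (k + 1 + 1) : ℝ) = 4 * uu (k + 1) - uu k := by
      rw [uu]; push_cast; ring
    rw [e]
    have e1 : (2 + s) ^ (k + 1 + 1) = 4 * (2 + s) ^ (k + 1) - (2 + s) ^ k := by
      rw [pow_succ, pow_succ]
      linear_combination ((2 + s) ^ k) * hs
    have e2 : (2 - s) ^ (k + 1 + 1) = 4 * (2 - s) ^ (k + 1) - (2 - s) ^ k := by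
      rw [pow_succ, pow_succ]
      linear_combination ((2 - s) ^ k) * hs
    rw [e1, e2]
    linear_combination 4 * h2 - h1

end Pool.Agent.R488.Tw.UT

namespace Pool.Agent.R488.Tw

open Finset UT

theorem twU : StmtU := by
  intro m
  set s : ℝ := Real.sqrt 3 with hsdef
  have hs : s * s = 3 := Real.mul_self_sqrt (by norm_num)
  have hs0 : s ≠ 0 := by
    intro h
    rw [h] at hs
    norm_num at hs
  have hW : ∀ z : ℝ, 4 * z * (1 - z) = 1 / 4 → PL z (2 * m + 1) = (1 - 2 * z) *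
      ∑ k ∈ range (m + 1), qt (3 / 2) m k * (1 / 4) ^ k := by
    intro z hz
    rw [(PL_QS z m).2, QS, hz]
  have h1 := hW ((2 + s) / 4) (by linear_combination (-1 / 4) * hs)
  have h2 := hW ((2 - s) / 4) (by linear_combination (-1 / 4) * hs)
  have hsum : (∑ k ∈ range (2 * m + 2), (uu k : ℝ) * ((2 * m + 1).choose k : ℝ) *
      ((2 * m + 1 + k).choose k : ℝ) * (-(1 / 4)) ^ k) * (2 * s) =
      PL ((2 + s) / 4) (2 * m + 1) - PL ((2 - s) / 4) (2 * m + 1) := by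
    rw [PL, PL, ← sum_sub_distrib, sum_mul]
    refine sum_congr rfl fun k _ => ?_
    have e1 : (-((2 + s) / 4)) ^ k = (-(1 / 4)) ^ k * (2 + s) ^ k := by
      rw [← mul_pow]; congr 1; ring
    have e2 : (-((2 - s) / 4)) ^ k = (-(1 / 4)) ^ k * (2 - s) ^ k := by
      rw [← mul_pow]; congr 1; ring
    rw [e1, e2]
    linear_combination (((2 * m + 1).choose k : ℝ) * ((2 * m + 1 + k).choose k : ℝ) *
      (-(1 / 4)) ^ k) * (uu_real s hs k).1
  rw [h1, h2] at hsum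
  have hR : ∑ k ∈ range (2 * m + 2), (uu k : ℝ) * ((2 * m + 1).choose k : ℝ) *
      ((2 * m + 1 + k).choose k : ℝ) * (-(1 / 4)) ^ k =
      -(1 / 2) * ∑ k ∈ range (m + 1), qt (3 / 2) m k * (1 / 4) ^ k := by
    apply mul_right_cancel₀ (mul_ne_zero two_ne_zero hs0)
    rw [hsum]; ring
  have hq : ∀ k, qt (3 / 2) m k = ((∏ i ∈ range k,
      (((i : ℚ) - m) * (m + 3 / 2 + i) / ((1 + i) * (1 + i))) : ℚ) : ℝ) := by
    intro k
    rw [qt]
    push_cast
    refine prod_congr rfl fun i _ => ?_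
    ring
  have hfin : ((∑ k ∈ range (2 * m + 2),
      (uu k : ℚ) * ((2 * m + 1).choose k : ℚ) * ((2 * m + 1 + k).choose k : ℚ) * (-(1 / 4)) ^ k : ℚ) : ℝ) =
      ((-(1 / 2) * ∑ k ∈ range (m + 1), (∏ i ∈ range k,
        (((i : ℚ) - m) * (m + 3 / 2 + i) / ((1 + i) * (1 + i)))) * (1 / 4) ^ k : ℚ) : ℝ) := by
    rw [Rat.cast_mul, Rat.cast_sum, Rat.cast_sum]
    have e1 : ∀ k ∈ range (m + 1), (((∏ i ∈ range k,
        (((i : ℚ) - m) * (m + 3 / 2 + i) / ((1 + i) * (1 + i)))) * (1 / 4) ^ k : ℚ) : ℝ) =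
        qt (3 / 2) m k * (1 / 4) ^ k := by
      intro k _
      rw [Rat.cast_mul, ← hq]
      push_cast
      rfl
    rw [sum_congr rfl e1]
    have e2 : ((-(1 / 2) : ℚ) : ℝ) = -(1 / 2) := by push_cast; rfl
    rw [e2, ← hR]
    refine sum_congr rfl fun k _ => ?_
    push_cast
    rfl
  exact_mod_cast hfin

end Pool.Agent.R488.Tw
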